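import Mathlib
import Pool.Agent.MP06ac62.Defs
import Pool.Agent.MP06ac62.U6
import Pool.Agent.MP06ac62.U7

set_option linter.all false
set_option maxHeartbeats 1000000

namespace H160Z

open MinMod
open Metric Filter Topology

theorem ent_slope (h : ℂ → ℂ) (hh : Differentiable ℂ h) :
    ∃ g : ℂ → ℂ, Differentiable ℂ g ∧ g 0 = deriv h 0 ∧ ∀ z, h z = h 0 + z * g z := by
  refine ⟨dslope h 0, ?_, dslope_same h 0, fun z => ?_⟩
  · rw [← differentiableOn_univ]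
    exact (Complex.differentiableOn_dslope Filter.univ_mem).2 hh.differentiableOn
  · have := sub_smul_dslope h 0 z
    rw [sub_zero, smul_eq_mul] at this
    rw [this]; ring

theorem normalize_taylor (f : ℂ → ℂ) (hf : Differentiable ℂ f) (h0 : f 0 ≠ 0) (p : ℕ) :
    ∃ T : ℂ → ℂ, Differentiable ℂ T ∧ (∃ C : ℝ, 0 ≤ C ∧ ∀ z, 1 ≤ ‖z‖ → ‖T z‖ ≤ C * ‖z‖ ^ p) ∧
      ∃ g : ℂ → ℂ, Differentiable ℂ g ∧ ∀ z, f z * Complex.exp (T z) = 1 + z ^ (p + 1) * g z := by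
  induction p with
  | zero =>
    obtain ⟨g, hg, -, hfg⟩ := ent_slope f hf
    refine ⟨fun _ => -Complex.log (f 0), differentiable_const _,
      ⟨‖Complex.log (f 0)‖, norm_nonneg _, fun z _ => by simp⟩, fun z => g z / f 0,
      hg.div_const _, fun z => ?_⟩
    rw [Complex.exp_neg, Complex.exp_log h0, hfg z]
    field_simp
    ring
  | succ p ih =>
    obtain ⟨T, hT, ⟨C, hC, hTC⟩, g, hg, hfg⟩ := ih
    obtain ⟨e, he, he0, hexp⟩ := ent_slope Complex.exp Complex.differentiable_exp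
    rw [Complex.deriv_exp, Complex.exp_zero] at he0
    rw [Complex.exp_zero] at hexp
    have hw : Differentiable ℂ (fun z : ℂ => -(g 0) * z ^ (p + 1)) := by fun_prop
    obtain ⟨k, hk⟩ : ∃ k : ℂ → ℂ, k = fun z => g z - g 0 * e (-(g 0) * z ^ (p + 1)) -
      g 0 * z ^ (p + 1) * g z * e (-(g 0) * z ^ (p + 1)) := ⟨_, rfl⟩
    have hew : Differentiable ℂ (fun z : ℂ => e (-(g 0) * z ^ (p + 1))) := he.comp hw
    have hkd : Differentiable ℂ k := by
      rw [hk]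
      exact (hg.sub (hew.const_mul _)).sub
        ((((differentiable_id.pow (p + 1)).const_mul _).mul hg).mul hew)
    have hk0 : k 0 = 0 := by
      rw [hk]; simp [he0]
    obtain ⟨k1, hk1, -, hkk⟩ := ent_slope k hkd
    refine ⟨fun z => T z + -(g 0) * z ^ (p + 1), hT.add hw, ⟨C + ‖g 0‖, by positivity, ?_⟩,
      k1, hk1, fun z => ?_⟩
    · intro z hz
      have h1 := hTC z hz
      have h2 : ‖z‖ ^ p ≤ ‖z‖ ^ (p + 1) := pow_le_pow_right₀ hz (by omega)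
      have h3 := mul_le_mul_of_nonneg_left h2 hC
      calc ‖T z + -(g 0) * z ^ (p + 1)‖ ≤ ‖T z‖ + ‖-(g 0) * z ^ (p + 1)‖ := norm_add_le _ _
        _ = ‖T z‖ + ‖g 0‖ * ‖z‖ ^ (p + 1) := by rw [norm_mul, norm_neg, norm_pow]
        _ ≤ _ := by linarith
    · rw [Complex.exp_add, ← mul_assoc, hfg z, hexp (-(g 0) * z ^ (p + 1))]
      have h4 : z * k1 z = k z := by rw [hkk z, hk0, zero_add]
      have h5 : z ^ (p + 1 + 1) * k1 z = z ^ (p + 1) * k z := by rw [← h4]; ring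
      rw [h5, hk]
      ring

/-- growth bound on the disc of radius `exp x` -/
def Bd (F : ℂ → ℂ) (B l x : ℝ) : Prop :=
  ∀ ζ : ℂ, ‖ζ‖ ≤ Real.exp x → ‖F ζ‖ ≤ Real.exp (B * Real.exp (l * x))

theorem Bd.mono {F : ℂ → ℂ} {B l x B' l' : ℝ} (h : Bd F B l x)
    (h2 : B * Real.exp (l * x) ≤ B' * Real.exp (l' * x)) : Bd F B' l' x :=
  fun ζ hζ => (h ζ hζ).trans (Real.exp_le_exp.2 h2)

theorem Bd.monoB {F : ℂ → ℂ} {B l x B' : ℝ} (h : Bd F B l x) (h2 : B ≤ B') : Bd F B' l x :=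
  h.mono (mul_le_mul_of_nonneg_right h2 (Real.exp_pos _).le)

theorem Bd.step {F f : ℂ → ℂ} {B B' l x : ℝ} {z0 : ℂ} (hz0 : z0 ≠ 0) (h : Bd F B l x)
    (h' : Bd f B' l (x + Real.log ‖z0‖)) (k n : ℕ) :
    Bd (fun ζ => F ζ ^ k * f (z0 * ζ) ^ n) (k * B + n * Real.exp (l * Real.log ‖z0‖) * B') l x := by
  intro ζ hζ
  have hz : 0 < ‖z0‖ := norm_pos_iff.2 hz0
  have h1 := h ζ hζ
  have h2 := h' (z0 * ζ) (by
    rw [norm_mul, Real.exp_add, Real.exp_log hz, mul_comm]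
    exact mul_le_mul_of_nonneg_right hζ hz.le)
  rw [norm_mul, norm_pow, norm_pow]
  have h3 := pow_le_pow_left₀ (norm_nonneg _) h1 k
  have h4 := pow_le_pow_left₀ (norm_nonneg _) h2 n
  refine (mul_le_mul h3 h4 (by positivity) (by positivity)).trans (le_of_eq ?_)
  rw [← Real.exp_nat_mul, ← Real.exp_nat_mul, ← Real.exp_add]
  congr 1
  rw [mul_add l, Real.exp_add]
  ring

theorem block0 (ε : ℝ) (hε : 0 < ε) : ∃ f : ℂ → ℂ, Differentiable ℂ f ∧ f 0 = 1 ∧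
    ∃ lam η B C x1 x2 : ℝ, 0 < lam ∧ 0 < η ∧ 0 < B ∧ 0 ≤ C ∧
      (∀ x, x1 ≤ x → Bd f ((1 + ε) * B) lam x) ∧ (∀ x, x ≤ x2 → Bd f ((1 + ε) * B) lam x) ∧
      (∀ x, Bd f C lam x) ∧ (∀ x, Bd f C (lam + η) x) ∧
      ∀ R : ℝ, ∃ z0 : ℂ, z0 ≠ 0 ∧ R ≤ ‖z0‖ ∧ ∃ m : ℕ,
        (2 - ε) * B * Real.exp (lam * Real.log ‖z0‖) ≤ m ∧
        ∃ g : ℂ → ℂ, Differentiable ℂ g ∧ ∀ z, f z = (z - z0) ^ m * g z := by
  obtain ⟨q0, hq0, hκq⟩ := MinMod.U7.un_q0 (4 * ε) (by linarith)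
  obtain ⟨lam0, hlam0, hcore⟩ := MinMod.U6.upper_core q0 hq0 (ε / 2) (by linarith)
  obtain ⟨p, hp⟩ := exists_nat_ge lam0
  obtain ⟨lam, hlam⟩ : ∃ lam : ℝ, lam = p + 1 / 2 := ⟨_, rfl⟩
  have hl0 : 0 < lam := by linarith
  obtain ⟨f, hf, hf0, B, hB, r0, hr0, hP1, hP2⟩ := hcore lam (by linarith) (by
    intro n hn
    rw [hlam] at hn
    have h1 : ((2 * n : ℕ) : ℝ) = ((2 * p + 1 : ℕ) : ℝ) := by push_cast; linarith
    have h2 : 2 * n = 2 * p + 1 := by exact_mod_cast h1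
    omega)
  obtain ⟨T, hT, ⟨C0, hC0, hTC⟩, g, hg, hfg⟩ := normalize_taylor f hf hf0 p
  obtain ⟨f1, hf1⟩ : ∃ f1 : ℂ → ℂ, f1 = fun z => f z * Complex.exp (T z) := ⟨_, rfl⟩
  have hf1d : Differentiable ℂ f1 := by rw [hf1]; exact hf.mul hT.cexp
  obtain ⟨x1, hx10, hx1a, hx1b⟩ : ∃ x1 : ℝ, 0 ≤ x1 ∧ r0 ≤ Real.exp x1 ∧
      C0 ≤ ε / 2 * B * Real.exp (x1 / 2) := by
    have h1 : ∀ᶠ x : ℝ in atTop, r0 ≤ Real.exp x := Real.tendsto_exp_atTop.eventually_ge_atTop _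
    have h2 : Tendsto (fun x : ℝ => ε / 2 * B * Real.exp (x / 2)) atTop atTop :=
      (Real.tendsto_exp_atTop.comp (tendsto_id.atTop_div_const (by norm_num))).const_mul_atTop
        (by positivity)
    obtain ⟨x, hx⟩ := ((eventually_ge_atTop 0).and (h1.and (h2.eventually_ge_atTop C0))).exists
    exact ⟨x, hx.1, hx.2.1, hx.2.2⟩
  have hbig : ∀ x, x1 ≤ x → Bd f1 ((1 + ε) * B) lam x := by
    intro x hx ζ hζ
    have hex : Real.exp x1 ≤ Real.exp x := Real.exp_le_exp.2 hx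
    have hex1 : 1 ≤ Real.exp x := Real.one_le_exp (by linarith)
    refine Complex.norm_le_of_forall_mem_frontier_norm_le (U := ball (0:ℂ) (Real.exp x))
      isBounded_ball hf1d.diffContOnCl ?_ ?_
    · intro w hw
      rw [frontier_ball (0:ℂ) (Real.exp_pos x).ne', mem_sphere_zero_iff_norm] at hw
      have h1 := hP1 w (by rw [hw]; linarith)
      have h2 := hTC w (by rw [hw]; exact hex1)
      rw [hw] at h1 h2
      rw [← Real.exp_mul, mul_comm x lam] at h1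
      rw [← Real.exp_nat_mul] at h2
      have h3 : ‖Complex.exp (T w)‖ ≤ Real.exp (C0 * Real.exp (p * x)) := by
        rw [Complex.norm_exp]
        exact Real.exp_le_exp.2 ((Complex.re_le_norm _).trans h2)
      have h4 : C0 * Real.exp (p * x) ≤ ε / 2 * B * Real.exp (lam * x) := by
        have h5 : Real.exp (x1 / 2) * Real.exp (p * x) ≤ Real.exp (lam * x) := by
          rw [← Real.exp_add, hlam]
          exact Real.exp_le_exp.2 (by linarith)
        calc C0 * Real.exp (p * x) ≤ ε / 2 * B * Real.exp (x1 / 2) * Real.exp (p * x) :=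
              mul_le_mul_of_nonneg_right hx1b (Real.exp_pos _).le
          _ = ε / 2 * B * (Real.exp (x1 / 2) * Real.exp (p * x)) := by ring
          _ ≤ _ := mul_le_mul_of_nonneg_left h5 (by positivity)
      rw [hf1]
      simp only [norm_mul]
      refine (mul_le_mul h1 h3 (norm_nonneg _) (Real.exp_pos _).le).trans ?_
      rw [← Real.exp_add]
      exact Real.exp_le_exp.2 (by linarith)
    · rw [closure_ball (0:ℂ) (Real.exp_pos x).ne']
      exact mem_closedBall_zero_iff.2 hζ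
  obtain ⟨C1, hC1⟩ := (isCompact_closedBall (0:ℂ) (Real.exp x1)).exists_bound_of_continuousOn
    hg.continuous.continuousOn
  have hC10 : 0 ≤ C1 := (norm_nonneg _).trans (hC1 0 (mem_closedBall_self (Real.exp_pos _).le))
  have hsmall : ∀ x, x ≤ x1 → Bd f1 C1 (lam + 1 / 2) x := by
    intro x hx ζ hζ
    have h1 := hC1 ζ (mem_closedBall_zero_iff.2 (hζ.trans (Real.exp_le_exp.2 hx)))
    have h2 : ‖ζ‖ ^ (p + 1) ≤ Real.exp ((lam + 1 / 2) * x) := by
      have : (lam + 1 / 2) * x = ((p + 1 : ℕ) : ℝ) * x := by rw [hlam]; push_cast; ring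
      rw [this, Real.exp_nat_mul]
      exact pow_le_pow_left₀ (norm_nonneg _) hζ _
    have h3 : f1 ζ = 1 + ζ ^ (p + 1) * g ζ := by rw [hf1]; exact hfg ζ
    rw [h3]
    calc ‖1 + ζ ^ (p + 1) * g ζ‖ ≤ ‖(1:ℂ)‖ + ‖ζ ^ (p + 1) * g ζ‖ := norm_add_le _ _
      _ = ‖ζ‖ ^ (p + 1) * ‖g ζ‖ + 1 := by rw [norm_one, norm_mul, norm_pow]; ring
      _ ≤ C1 * Real.exp ((lam + 1 / 2) * x) + 1 := by
          have := mul_le_mul h2 h1 (norm_nonneg _) (Real.exp_pos _).le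
          linarith
      _ ≤ _ := Real.add_one_le_exp _
  have hsplit : ∀ x : ℝ, Real.exp ((lam + 1 / 2) * x) = Real.exp (x / 2) * Real.exp (lam * x) := by
    intro x
    rw [← Real.exp_add]; congr 1; ring
  obtain ⟨x2, hx2a, hx2b⟩ : ∃ x2 : ℝ, x2 ≤ x1 ∧ C1 * Real.exp (x2 / 2) ≤ B := by
    have h2 : Tendsto (fun x : ℝ => C1 * Real.exp (x / 2)) atBot (𝓝 (C1 * 0)) :=
      (Real.tendsto_exp_atBot.comp (tendsto_id.atBot_div_const (by norm_num))).const_mul _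
    rw [mul_zero] at h2
    obtain ⟨x, hx⟩ := ((eventually_le_atBot x1).and (h2.eventually (gt_mem_nhds hB))).exists
    exact ⟨x, hx.1, hx.2.le⟩
  have hBe : 0 < (1 + ε) * B := by positivity
  have he1 : 1 ≤ Real.exp (x1 / 2) := Real.one_le_exp (by linarith)
  refine ⟨f1, hf1d, ?_, lam, 1 / 2, B, (1 + ε) * B + C1 * Real.exp (x1 / 2), x1, x2, hl0,
    by norm_num, hB, by positivity, hbig, ?_, ?_, ?_, ?_⟩
  · rw [hf1]
    have := hfg 0
    simpa using this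
  · intro x hx
    refine (hsmall x (by linarith)).mono ?_
    rw [hsplit, ← mul_assoc]
    apply mul_le_mul_of_nonneg_right _ (Real.exp_pos _).le
    have h1 : Real.exp (x / 2) ≤ Real.exp (x2 / 2) := Real.exp_le_exp.2 (by linarith)
    have h2 := mul_le_mul_of_nonneg_left h1 hC10
    nlinarith
  · intro x
    rcases le_total x1 x with hx | hx
    · refine (hbig x hx).monoB ?_
      have : 0 ≤ C1 * Real.exp (x1 / 2) := by positivity
      linarith
    · refine (hsmall x hx).mono ?_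
      rw [hsplit, ← mul_assoc]
      apply mul_le_mul_of_nonneg_right _ (Real.exp_pos _).le
      have h1 : Real.exp (x / 2) ≤ Real.exp (x1 / 2) := Real.exp_le_exp.2 (by linarith)
      have h2 := mul_le_mul_of_nonneg_left h1 hC10
      linarith
  · intro x
    rcases le_total x1 x with hx | hx
    · refine (hbig x hx).mono ?_
      have h1 : Real.exp (lam * x) ≤ Real.exp ((lam + 1 / 2) * x) :=
        Real.exp_le_exp.2 (by nlinarith)
      have : 0 ≤ C1 * Real.exp (x1 / 2) := by positivity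
      exact mul_le_mul (by linarith) h1 (Real.exp_pos _).le (by positivity)
    · refine (hsmall x hx).monoB ?_
      have := mul_le_mul_of_nonneg_left he1 hC10
      linarith
  · intro R
    obtain ⟨Q, hQ⟩ : ∃ Q : ℝ, Q = 4 * (q0:ℝ) ^ 2 / lam ^ 2 := ⟨_, rfl⟩
    have hQ0 : 0 ≤ Q := by rw [hQ]; positivity
    obtain ⟨z0, hz0, hz0r, m, hm, g0, hg0, hfg0⟩ := hP2 (max r0 (|R| * (1 + Q))) (le_max_left _ _)
    rw [← hQ] at hz0r
    have hz : 0 < ‖z0‖ := norm_pos_iff.2 hz0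
    refine ⟨z0, hz0, ?_, m, ?_, fun z => g0 z * Complex.exp (T z), hg0.mul hT.cexp, fun z => ?_⟩
    · have h1 := (abs_le.1 hz0r).2
      have h2 : max r0 (|R| * (1 + Q)) ≤ (1 + Q) * ‖z0‖ := by
        rw [← div_le_iff₀ hz]; linarith
      have h3 : |R| * (1 + Q) ≤ (1 + Q) * ‖z0‖ := (le_max_right _ _).trans h2
      have h4 : |R| ≤ ‖z0‖ := by
        by_contra hc
        push Not at hc
        nlinarith
      exact (le_abs_self R).trans h4
    · refine le_trans ?_ hm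
      rw [Real.rpow_def_of_pos hz, mul_comm (Real.log ‖z0‖) lam]
      apply mul_le_mul_of_nonneg_right _ (Real.exp_pos _).le
      apply mul_le_mul_of_nonneg_right _ hB.le
      linarith
    · rw [hf1]
      simp only
      rw [hfg0 z]; ring

theorem ramp (ε : ℝ) (hε : 0 < ε) (hε1 : ε ≤ 1) (f : ℂ → ℂ) (hf : Differentiable ℂ f) (hf0 : f 0 = 1)
    (lam η B C x1 x2 : ℝ) (hB : 0 < B) (hC : 0 ≤ C)
    (h1 : ∀ x, x1 ≤ x → Bd f ((1 + ε) * B) lam x) (h2 : ∀ x, x ≤ x2 → Bd f ((1 + ε) * B) lam x)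
    (h3 : ∀ x, Bd f C lam x) (h4 : ∀ x, Bd f C (lam + η) x)
    (hz : ∀ R : ℝ, ∃ z0 : ℂ, z0 ≠ 0 ∧ R ≤ ‖z0‖ ∧ ∃ m : ℕ,
        (2 - ε) * B * Real.exp (lam * Real.log ‖z0‖) ≤ m ∧
        ∃ g : ℂ → ℂ, Differentiable ℂ g ∧ ∀ z, f z = (z - z0) ^ m * g z) (N : ℕ) :
    ∃ F : ℂ → ℂ, Differentiable ℂ F ∧ F 0 = 1 ∧ ∃ a s C3 : ℝ, 0 < a ∧ 0 ≤ C3 ∧
      (∀ x, Bd F (a * (N * ((1 + ε) ^ 2 * B) + (1 + ε) * C)) lam x) ∧
      (∀ x, x ≤ s → Bd F (a * (N * ((1 + ε) ^ 2 * B))) lam x) ∧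
      (∀ x, Bd F C3 (lam + η) x) ∧ ∃ m : ℕ, a * (N * ((2 - ε) * B)) ≤ m ∧
        ∃ g : ℂ → ℂ, Differentiable ℂ g ∧ ∀ z, F z = (z - 1) ^ m * g z := by
  induction N with
  | zero =>
    have hone : ∀ D l x : ℝ, 0 ≤ D → Bd (fun _ => (1:ℂ)) D l x := by
      intro D l x hD ζ _
      rw [norm_one]
      exact Real.one_le_exp (by positivity)
    refine ⟨fun _ => 1, differentiable_const _, rfl, 1, 0, 0, one_pos, le_rfl, fun x => ?_,
      fun x _ => ?_, fun x => hone _ _ _ le_rfl, 0, by simp, fun _ => 1, differentiable_const _,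
      fun z => by simp⟩
    · apply hone; positivity
    · apply hone; positivity
  | succ N ih =>
    obtain ⟨F, hF, hF0, a, s, C3, ha, hC3, b1, b2, b3, m, hm, g, hg, hFg⟩ := ih
    obtain ⟨z0, hz0, hz0R, m0, hm0, g0, hg0, hfg0⟩ := hz (Real.exp (x1 - s))
    have hzp : 0 < ‖z0‖ := norm_pos_iff.2 hz0
    have hlz : x1 - s ≤ Real.log ‖z0‖ := (Real.le_log_iff_exp_le hzp).2 hz0R
    obtain ⟨E, hE⟩ : ∃ E, E = Real.exp (lam * Real.log ‖z0‖) := ⟨_, rfl⟩
    have hE0 : 0 < E := by rw [hE]; exact Real.exp_pos _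
    obtain ⟨k, hk⟩ := exists_nat_ge (E / (a * ε))
    rw [div_le_iff₀ (by positivity)] at hk
    have hk0 : (0:ℝ) < k := by
      by_contra hc
      have : (k:ℝ) = 0 := le_antisymm (not_lt.1 hc) (Nat.cast_nonneg k)
      rw [this] at hk
      linarith
    obtain ⟨l, hl1, hl2⟩ : ∃ l : ℕ, k * a ≤ l * E ∧ l * E ≤ (1 + ε) * (k * a) := by
      refine ⟨⌈k * a / E⌉₊, ?_, ?_⟩
      · have := Nat.le_ceil (k * a / E)
        rwa [div_le_iff₀ hE0] at this
      · have h5 := (Nat.ceil_lt_add_one (by positivity : 0 ≤ k * a / E)).le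
        have h6 := mul_le_mul_of_nonneg_right h5 hE0.le
        rw [add_mul, div_mul_cancel₀ _ hE0.ne'] at h6
        nlinarith
    have hN : (0:ℝ) ≤ N := Nat.cast_nonneg N
    have hka : 0 < k * a := by positivity
    have q1 : l * E * ((1 + ε) * B) ≤ (k * a) * ((1 + ε) ^ 2 * B) := by
      have := mul_le_mul_of_nonneg_right hl2 (by positivity : 0 ≤ (1 + ε) * B)
      nlinarith
    have q2 : l * E * C ≤ (k * a) * ((1 + ε) * C) := by
      have := mul_le_mul_of_nonneg_right hl2 hC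
      nlinarith
    have q3 : 0 ≤ (k * a) * ((1 + ε) ^ 2 * B) := by positivity
    refine ⟨fun ζ => F ζ ^ k * f (z0 * ζ) ^ l,
      (hF.pow k).mul ((hf.comp (differentiable_id.const_mul z0)).pow l), by simp [hF0, hf0],
      k * a, min s (x2 - Real.log ‖z0‖),
      k * C3 + l * Real.exp ((lam + η) * Real.log ‖z0‖) * C, hka, by positivity,
      fun x => ?_, fun x hx => ?_, fun x => Bd.step hz0 (b3 x) (h4 _) k l, m * k + m0 * l, ?_,
      fun ζ => g ζ ^ k * (z0 ^ m0 * g0 (z0 * ζ)) ^ l,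
      (hg.pow k).mul (((hg0.comp (differentiable_id.const_mul z0)).const_mul _).pow l),
      fun ζ => ?_⟩
    · rcases le_total x s with hx | hx
      · refine (Bd.step hz0 (b2 x hx) (h3 _) k l).monoB ?_
        rw [← hE]
        push_cast
        nlinarith
      · refine (Bd.step hz0 (b1 x) (h1 _ (by linarith)) k l).monoB ?_
        rw [← hE]
        push_cast
        nlinarith
    · have hx1 : x ≤ s := hx.trans (min_le_left _ _)
      have hx2 : x ≤ x2 - Real.log ‖z0‖ := hx.trans (min_le_right _ _)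
      refine (Bd.step hz0 (b2 x hx1) (h2 _ (by linarith)) k l).monoB ?_
      rw [← hE]
      push_cast
      nlinarith
    · rw [← hE] at hm0
      have h5 := mul_le_mul_of_nonneg_left hm hk0.le
      have h6 := mul_le_mul_of_nonneg_left hm0 (Nat.cast_nonneg l : (0:ℝ) ≤ l)
      have h7 := mul_le_mul_of_nonneg_left hl1 (by nlinarith : 0 ≤ (2 - ε) * B)
      push_cast
      nlinarith
    · simp only
      rw [hFg ζ, hfg0 (z0 * ζ)]
      have : z0 * ζ - z0 = z0 * (ζ - 1) := by ring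
      rw [this, mul_pow, mul_pow, mul_pow, mul_pow, mul_pow, pow_add, pow_mul, pow_mul]
      ring

theorem block (ε : ℝ) (hε : 0 < ε) (hε1 : ε ≤ 1) : ∃ F : ℂ → ℂ, Differentiable ℂ F ∧ F 0 = 1 ∧
    ∃ lam ν B : ℝ, 0 < lam ∧ 0 < ν ∧ 0 < B ∧ (∀ x, Bd F B lam x) ∧ (∀ x, Bd F B (lam + ν) x) ∧
      ∃ m : ℕ, (2 - ε) * B ≤ m ∧ ∃ g : ℂ → ℂ, Differentiable ℂ g ∧ ∀ z, F z = (z - 1) ^ m * g z := by
  obtain ⟨e, he⟩ : ∃ e : ℝ, e = ε / 32 := ⟨_, rfl⟩
  have he0 : 0 < e := by rw [he]; positivity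
  have he1 : e ≤ 1 := by rw [he]; linarith
  obtain ⟨f, hf, hf0, lam, η, B, C, x1, x2, hlam, hη, hB, hC, h1, h2, h3, h4, hz⟩ := block0 e he0
  obtain ⟨N0, hN0⟩ := exists_nat_ge (C / (e * B))
  rw [div_le_iff₀ (by positivity)] at hN0
  obtain ⟨F, hF, hF0, a, s, C3, ha, hC3, b1, -, b3, m, hm, g, hg, hFg⟩ :=
    ramp e he0 he1 f hf hf0 lam η B C x1 x2 hB hC h1 h2 h3 h4 hz (N0 + 1)
  obtain ⟨N, hN⟩ : ∃ N : ℝ, N = ((N0 + 1 : ℕ) : ℝ) := ⟨_, rfl⟩
  rw [← hN] at b1 hm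
  have hN1 : (N0:ℝ) + 1 = N := by rw [hN]; push_cast; ring
  have hN00 : (0:ℝ) ≤ N0 := Nat.cast_nonneg _
  have hNp : 0 < N := by linarith
  obtain ⟨B3, hB3⟩ : ∃ B3, B3 = a * (N * ((1 + e) ^ 2 * B) + (1 + e) * C) := ⟨_, rfl⟩
  rw [← hB3] at b1
  have hB30 : 0 < B3 := by rw [hB3]; positivity
  have hB3le : B3 ≤ (1 + e) ^ 3 * (a * (N * B)) := by
    have h5 : C ≤ N * (e * B) := by
      have : N0 * (e * B) ≤ N * (e * B) := mul_le_mul_of_nonneg_right (by linarith) (by positivity)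
      linarith
    have h6 : (1 + e) * C ≤ (1 + e) ^ 2 * (N * (e * B)) :=
      mul_le_mul (by nlinarith) h5 hC (by positivity)
    rw [hB3]
    have h7 := mul_le_mul_of_nonneg_left h6 ha.le
    nlinarith
  obtain ⟨s2, hs20, hs2⟩ : ∃ s2 : ℝ, s2 ≤ -1 ∧ C3 * Real.exp (η / 2 * s2) ≤ B3 := by
    have h5 : Tendsto (fun x : ℝ => C3 * Real.exp (η / 2 * x)) atBot (𝓝 (C3 * 0)) :=
      (Real.tendsto_exp_atBot.comp (tendsto_id.const_mul_atBot (by positivity))).const_mul _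
    rw [mul_zero] at h5
    obtain ⟨x, hx⟩ := ((eventually_le_atBot (-1)).and (h5.eventually (gt_mem_nhds hB30))).exists
    exact ⟨x, hx.1, hx.2.le⟩
  have hle : 0 < Real.log (1 + e) := Real.log_pos (by linarith)
  obtain ⟨ν, hν0, hν1, hν2⟩ : ∃ ν : ℝ, 0 < ν ∧ ν ≤ η / 2 ∧ ν * (-s2) ≤ Real.log (1 + e) := by
    refine ⟨min (η / 2) (Real.log (1 + e) / (-s2)), lt_min (by positivity)
      (div_pos hle (by linarith)), min_le_left _ _, ?_⟩
    rw [← le_div_iff₀ (by linarith)]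
    exact min_le_right _ _
  refine ⟨F, hF, hF0, lam, ν, (1 + e) * B3, hlam, hν0, by positivity,
    fun x => (b1 x).monoB (by nlinarith), fun x => ?_, m, ?_, g, hg, hFg⟩
  · rcases le_total s2 x with hx | hx
    · refine (b1 x).mono ?_
      have h5 : Real.exp (lam * x) ≤ (1 + e) * Real.exp ((lam + ν) * x) := by
        rw [← Real.exp_log (by linarith : 0 < 1 + e), ← Real.exp_add]
        exact Real.exp_le_exp.2 (by nlinarith)
      have h6 := mul_le_mul_of_nonneg_left h5 hB30.le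
      linarith
    · refine (b3 x).mono ?_
      have h5 : Real.exp ((lam + η) * x) ≤ Real.exp (η / 2 * s2) * Real.exp ((lam + ν) * x) := by
        rw [← Real.exp_add]
        exact Real.exp_le_exp.2 (by nlinarith)
      have h6 := mul_le_mul_of_nonneg_left h5 hC3
      have h7 := mul_le_mul_of_nonneg_right hs2 (Real.exp_pos ((lam + ν) * x)).le
      have h8 : 0 ≤ e * B3 * Real.exp ((lam + ν) * x) := by positivity
      nlinarith
  · have h5 : (2 - ε) * (1 + e) ^ 4 ≤ 2 - e := by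
      have h6 : (1 + e) ^ 4 ≤ 1 + 15 * e := by
        have h7 : e ^ 2 ≤ e := by nlinarith
        have h8 : e ^ 3 ≤ e := by nlinarith
        have h9 : e ^ 4 ≤ e := by nlinarith
        nlinarith
      have h10 := mul_le_mul_of_nonneg_left h6 (by linarith : 0 ≤ 2 - ε)
      have h11 : 0 ≤ ε * e := by positivity
      rw [he] at h10 h11 ⊢
      nlinarith
    have h6 : (2 - ε) * ((1 + e) * B3) ≤ (2 - ε) * ((1 + e) * ((1 + e) ^ 3 * (a * (N * B)))) :=
      mul_le_mul_of_nonneg_left (mul_le_mul_of_nonneg_left hB3le (by linarith)) (by linarith)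
    have h7 := mul_le_mul_of_nonneg_right h5 (by positivity : 0 ≤ a * (N * B))
    nlinarith

end H160Z
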