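import Mathlib

set_option linter.all false
set_option maxHeartbeats 1000000

namespace H160Z

open Filter Topology

theorem inv_pow_taylor (p : ℕ) : ∃ c : ℝ, 0 ≤ c ∧ ∀ t : ℝ, |t| ≤ 1 / 2 →
    ((1 - t)⁻¹) ^ p ≤ 1 + p * t + c * t ^ 2 := by
  induction p with
  | zero => exact ⟨0, le_rfl, fun t _ => by simp⟩
  | succ p ih =>
    obtain ⟨c, hc, h⟩ := ih
    refine ⟨2 * c + 2 * p + 2, by positivity, fun t ht => ?_⟩
    have ht' := abs_le.1 ht
    have h1 : 0 < 1 - t := by linarith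
    have h2 : (1 - t)⁻¹ ≤ 1 + t + 2 * t ^ 2 := by
      rw [inv_le_iff_one_le_mul₀ h1]
      have : 0 ≤ t ^ 2 * (1 - 2 * t) := mul_nonneg (sq_nonneg t) (by linarith)
      nlinarith
    have h3 := h t ht
    have h4 : 0 ≤ (1 - t)⁻¹ := by positivity
    have h5 : 0 ≤ ((1 - t)⁻¹) ^ p := by positivity
    have h6 : ((1 - t)⁻¹) ^ (p + 1) ≤ (1 + p * t + c * t ^ 2) * (1 + t + 2 * t ^ 2) := by
      rw [pow_succ]
      exact mul_le_mul h3 h2 h4 (h5.trans h3)
    refine h6.trans ?_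
    have hp : (0:ℝ) ≤ p := Nat.cast_nonneg p
    have ht2 : 0 ≤ t ^ 2 := sq_nonneg t
    have h7 : t ^ 2 * t ≤ t ^ 2 * (1 / 2) := mul_le_mul_of_nonneg_left ht'.2 ht2
    have h8 : t ^ 2 * t ^ 2 ≤ t ^ 2 * (1 / 4) := mul_le_mul_of_nonneg_left (by nlinarith) ht2
    have h9 : (2 * p + c) * (t ^ 2 * t) ≤ (2 * p + c) * (t ^ 2 * (1 / 2)) :=
      mul_le_mul_of_nonneg_left h7 (by positivity)
    have h10 : (2 * c) * (t ^ 2 * t ^ 2) ≤ (2 * c) * (t ^ 2 * (1 / 4)) :=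
      mul_le_mul_of_nonneg_left h8 (by positivity)
    push_cast
    nlinarith

/-- A Borel type peak for an increasing function of superlinear upper growth. -/
theorem borel_peak (L : ℝ → ℝ) (τ0 : ℝ) (hmono : MonotoneOn L (Set.Ici τ0))
    (hsup : ∀ K : ℝ, ∃ᶠ τ in atTop, K * τ ≤ L τ)
    (p : ℕ) (hp : 1 ≤ p) (H : ℝ → ℝ)
    (hH : Tendsto (fun lam => H lam ^ 2 * (lam * Real.sqrt lam)) atTop (𝓝 0))
    (κ : ℝ) (hκ : 0 < κ) (hκ1 : κ ≤ 1) (lam0 τ1 : ℝ) :
    ∃ τ ≥ τ1, ∃ lam ≥ lam0, 1 ≤ L τ ∧ lam ^ p ≤ (p + 1) ^ p * L τ ^ (p + 1) ∧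
      |H lam| ≤ 1 ∧ ∀ s, |s| ≤ H lam → L (τ + s) ≤ L τ + lam * s + κ := by
  obtain ⟨c, hc, htay⟩ := inv_pow_taylor p
  have hη : 0 < min (1 / 4) (κ / (2 * (c + 1))) := lt_min (by norm_num) (by positivity)
  obtain ⟨K0, hK0⟩ := eventually_atTop.1 (hH.eventually (gt_mem_nhds hη))
  obtain ⟨K, hK1, hKK0, hKl⟩ : ∃ K : ℝ, 1 ≤ K ∧ K0 ≤ K ∧ lam0 ≤ K :=
    ⟨max 1 (max K0 lam0), le_max_left _ _, (le_max_left _ _).trans (le_max_right _ _),
      (le_max_right _ _).trans (le_max_right _ _)⟩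
  obtain ⟨t3, a1, a2, a3⟩ : ∃ t3 : ℝ, τ1 ≤ t3 ∧ τ0 ≤ t3 ∧ 1 ≤ t3 :=
    ⟨max τ1 (max τ0 1), le_max_left _ _, (le_max_left _ _).trans (le_max_right _ _),
      (le_max_right _ _).trans (le_max_right _ _)⟩
  obtain ⟨u, hu1, hu2⟩ := frequently_atTop.1 (hsup (K + 1)) (max (t3 + 2) (|L (t3 + 1)| + 3))
  have hu3 : t3 + 2 ≤ u := (le_max_left _ _).trans hu1
  have hu4 : |L (t3 + 1)| + 3 ≤ u := (le_max_right _ _).trans hu1
  obtain ⟨v, hv⟩ : ∃ v, v = u + 1 := ⟨_, rfl⟩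
  obtain ⟨G, hG⟩ : ∃ G : ℝ → ℝ, G = fun t => L t - K * t - ((v - t)⁻¹) ^ p := ⟨_, rfl⟩
  have hGu : G u = L u - K * u - 1 := by
    rw [hG, hv]; simp
  have hgnn : ∀ t, t < v → 0 ≤ ((v - t)⁻¹) ^ p := by
    intro t ht
    have : 0 < v - t := by linarith
    positivity
  have hbdd : BddAbove (G '' Set.Ico t3 v) := by
    refine ⟨L v, ?_⟩
    rintro _ ⟨t, ht, rfl⟩
    rw [hG]
    have e1 : L t ≤ L v := hmono (Set.mem_Ici.2 (a2.trans ht.1))
      (Set.mem_Ici.2 (by linarith)) ht.2.le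
    have e2 : 0 ≤ K * t := mul_nonneg (by linarith) (by linarith [ht.1])
    have e3 := hgnn t ht.2
    show L t - K * t - ((v - t)⁻¹) ^ p ≤ _
    linarith
  have huI : u ∈ Set.Ico t3 v := ⟨by linarith, by linarith⟩
  have hne : (G '' Set.Ico t3 v).Nonempty := ⟨_, u, huI, rfl⟩
  obtain ⟨_, ⟨t, ht, rfl⟩, htS⟩ := exists_lt_of_lt_csSup hne
    (show sSup (G '' Set.Ico t3 v) - κ / 2 < sSup (G '' Set.Ico t3 v) by linarith)
  have hle : ∀ x ∈ Set.Ico t3 v, G x < G t + κ / 2 := by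
    intro x hx
    have := le_csSup hbdd ⟨x, hx, rfl⟩
    linarith
  have hGt : G u - κ / 2 < G t := by linarith [hle u huI]
  have hGt2 : G t = L t - K * t - ((v - t)⁻¹) ^ p := by rw [hG]
  have hLabs := le_abs_self (L (t3 + 1))
  have hLabs0 := abs_nonneg (L (t3 + 1))
  have hGu2 : |L (t3 + 1)| + 2 ≤ G u := by rw [hGu]; nlinarith
  have hleft : t3 + 1 < t := by
    by_contra hcon
    push Not at hcon
    have e1 : L t ≤ L (t3 + 1) := hmono (Set.mem_Ici.2 (a2.trans ht.1))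
      (Set.mem_Ici.2 (by linarith)) hcon
    have e2 : 0 ≤ K * t := mul_nonneg (by linarith) (by linarith [ht.1])
    have e3 := hgnn t ht.2
    linarith
  obtain ⟨x, hx⟩ : ∃ x, x = v - t := ⟨_, rfl⟩
  have hx0 : 0 < x := by rw [hx]; linarith [ht.2]
  obtain ⟨y, hy⟩ : ∃ y, y = x⁻¹ := ⟨_, rfl⟩
  have hy0 : 0 < y := by rw [hy]; positivity
  have hxy : x * y = 1 := by rw [hy]; field_simp
  rw [← hx, ← hy] at hGt2
  have hyp : 0 < y ^ p := by positivity
  have hp1 : (1:ℝ) ≤ p := by exact_mod_cast hp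
  have hKt : K ≤ K * t := le_mul_of_one_le_right (by linarith) (by linarith)
  have hLK : K + y ^ p ≤ L t := by linarith
  have hL1 : 1 ≤ L t := by linarith
  obtain ⟨lam, hlam⟩ : ∃ lam, lam = K + p * y ^ (p + 1) := ⟨_, rfl⟩
  have hyp1 : 0 < y ^ (p + 1) := by positivity
  have hlamK : K ≤ lam := by rw [hlam]; nlinarith
  have hlam1 : 1 ≤ lam := by linarith
  have hylam : y ^ (p + 1) ≤ lam := by rw [hlam]; nlinarith
  have hsq1 : 1 ≤ Real.sqrt lam := Real.one_le_sqrt.2 hlam1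
  have hysq : y ≤ Real.sqrt lam := by
    by_cases h1 : y ≤ 1
    · linarith
    · push Not at h1
      apply Real.le_sqrt_of_sq_le
      calc y ^ 2 ≤ y ^ (p + 1) := pow_le_pow_right₀ h1.le (by omega)
        _ ≤ lam := hylam
  have hHs := hK0 lam (by linarith)
  have hHs1 : H lam ^ 2 * (lam * Real.sqrt lam) < 1 / 4 := lt_of_lt_of_le hHs (min_le_left _ _)
  have hHs2 : H lam ^ 2 * (lam * Real.sqrt lam) < κ / (2 * (c + 1)) :=
    lt_of_lt_of_le hHs (min_le_right _ _)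
  have hH2 : 0 ≤ H lam ^ 2 := sq_nonneg _
  have hsqsq : Real.sqrt lam ^ 2 = lam := Real.sq_sqrt (by linarith)
  have hll : lam ≤ lam * Real.sqrt lam := le_mul_of_one_le_right (by linarith) hsq1
  have hH3 : H lam ^ 2 * lam ≤ 1 / 4 := by
    have := mul_le_mul_of_nonneg_left hll hH2
    linarith
  have hH4 : H lam ^ 2 ≤ 1 / 4 := by
    have := mul_le_mul_of_nonneg_left hlam1 hH2
    linarith
  refine ⟨t, by linarith, lam, by linarith, hL1, ?_, ?_, ?_⟩
  · -- size of lam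
    have h1 : lam ≤ (p + 1) * (L t * max 1 y) := by
      have hm1 : 1 ≤ max 1 y := le_max_left _ _
      have hm2 : y ≤ max 1 y := le_max_right _ _
      have h2 : K ≤ L t * max 1 y := by
        have : L t ≤ L t * max 1 y := le_mul_of_one_le_right (by linarith) hm1
        linarith
      have h3 : y ^ (p + 1) ≤ L t * max 1 y := by
        rw [pow_succ]
        exact mul_le_mul (by linarith) hm2 hy0.le (by linarith)
      have h4 := mul_le_mul_of_nonneg_left h3 (by linarith : (0:ℝ) ≤ p)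
      rw [hlam]
      linarith
    have h5 : (max 1 y) ^ p ≤ L t := by
      rcases le_total 1 y with h | h
      · rw [max_eq_right h]; linarith
      · rw [max_eq_left h, one_pow]; exact hL1
    calc lam ^ p ≤ ((p + 1) * (L t * max 1 y)) ^ p := pow_le_pow_left₀ (by linarith) h1 p
      _ = (p + 1) ^ p * (L t ^ p * (max 1 y) ^ p) := by rw [mul_pow, mul_pow]
      _ ≤ (p + 1) ^ p * (L t ^ p * L t) := by
          apply mul_le_mul_of_nonneg_left _ (by positivity)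
          exact mul_le_mul_of_nonneg_left h5 (by positivity)
      _ = (p + 1) ^ p * L t ^ (p + 1) := by rw [pow_succ]
  · rw [← sq_le_one_iff_abs_le_one]; linarith
  · intro s hs
    have hs2 : s ^ 2 ≤ H lam ^ 2 := by
      rw [← sq_abs s]
      exact pow_le_pow_left₀ (abs_nonneg _) hs 2
    have hy2 : y ^ 2 ≤ lam := by
      rw [← hsqsq]; exact pow_le_pow_left₀ hy0.le hysq 2
    have hsy : (s * y) ^ 2 ≤ (1 / 2) ^ 2 := by
      rw [mul_pow]
      calc s ^ 2 * y ^ 2 ≤ H lam ^ 2 * lam := mul_le_mul hs2 hy2 (by positivity) hH2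
        _ ≤ (1 / 2) ^ 2 := by linarith
    have hsy' : |s * y| ≤ 1 / 2 := by
      have := sq_le_sq.1 hsy
      rwa [abs_of_pos (by norm_num : (0:ℝ) < 1 / 2)] at this
    have hsy2 := abs_le.1 hsy'
    have hs1 : |s| ≤ 1 := by
      rw [← sq_le_one_iff_abs_le_one]; linarith
    have hs1' := abs_le.1 hs1
    have hsx : s ≤ x / 2 := by
      have : s = (s * y) * x := by rw [mul_assoc, mul_comm y x, hxy, mul_one]
      rw [this]; nlinarith
    have h5 := hle (t + s) ⟨by linarith, by linarith⟩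
    have h6 : G (t + s) = L (t + s) - K * (t + s) - ((v - (t + s))⁻¹) ^ p := by rw [hG]
    have h7 : (v - (t + s))⁻¹ = y * (1 - s * y)⁻¹ := by
      have e : v - (t + s) = x * (1 - s * y) := by
        have : x * (s * y) = s := by rw [mul_comm s y, ← mul_assoc, hxy, one_mul]
        rw [mul_sub, this, mul_one, hx]; ring
      rw [e, mul_inv, ← hy]
    have h8 : ((v - (t + s))⁻¹) ^ p ≤ y ^ p * (1 + p * (s * y) + c * (s * y) ^ 2) := by
      rw [h7, mul_pow]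
      exact mul_le_mul_of_nonneg_left (htay _ hsy') hyp.le
    have h9 : y ^ p * (c * (s * y) ^ 2) ≤ κ / 2 := by
      have e : y ^ p * (c * (s * y) ^ 2) = c * (s ^ 2 * (y ^ (p + 1) * y)) := by ring
      rw [e]
      have h10 : s ^ 2 * (y ^ (p + 1) * y) ≤ H lam ^ 2 * (lam * Real.sqrt lam) :=
        mul_le_mul hs2 (mul_le_mul hylam hysq hy0.le (by linarith)) (by positivity) hH2
      have h11 : c * (s ^ 2 * (y ^ (p + 1) * y)) ≤ (c + 1) * (κ / (2 * (c + 1))) :=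
        mul_le_mul (by linarith) (by linarith) (by positivity) (by linarith)
      have e2 : (c + 1) * (κ / (2 * (c + 1))) = κ / 2 := by field_simp
      linarith
    have e3 : y ^ p * (1 + p * (s * y) + c * (s * y) ^ 2) =
        y ^ p + p * y ^ (p + 1) * s + y ^ p * (c * (s * y) ^ 2) := by ring
    rw [h6, hGt2] at h5
    rw [hlam]
    nlinarith

end H160Z
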