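import Mathlib
import Pool.Agent.H590Z.HC.Seq

set_option autoImplicit false
set_option linter.all false

namespace Pool.Agent.H590Z.HC

open Finset Filter Topology

namespace H160E1

theorem cs_sum (a w x : ℤ → ℂ) (M θ c : ℝ) (hM : 0 ≤ M) (hθ0 : 0 ≤ θ) (hc : 0 ≤ c)
    (hx : ∀ F : Finset ℤ, ∑ n ∈ F, ‖x n‖ ^ 2 ≤ M ^ 2)
    (ha : ∀ F : Finset ℤ, ∑ n ∈ F, ‖a n‖ ^ 2 ≤ θ ^ 2) (hw : ∀ t, ‖w t‖ ≤ c * ‖a t‖) :
    Summable (fun t => w t * x t) ∧ ‖∑' t, w t * x t‖ ≤ c * (θ * M) := by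
  have h1 : ∀ F : Finset ℤ, ∑ t ∈ F, ‖w t * x t‖ ≤ c * (θ * M) := by
    intro F
    have h2 : ∑ t ∈ F, ‖a t‖ * ‖x t‖ ≤ θ * M := by
      apply le_of_pow_le_pow_left₀ two_ne_zero (by positivity)
      refine (Finset.sum_mul_sq_le_sq_mul_sq F _ _).trans ?_
      rw [mul_pow]
      exact mul_le_mul (ha F) (hx F) (Finset.sum_nonneg fun _ _ => by positivity) (by positivity)
    calc ∑ t ∈ F, ‖w t * x t‖ ≤ ∑ t ∈ F, c * (‖a t‖ * ‖x t‖) := by
          refine Finset.sum_le_sum fun t _ => ?_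
          rw [norm_mul, ← mul_assoc]
          exact mul_le_mul_of_nonneg_right (hw t) (norm_nonneg _)
      _ = c * ∑ t ∈ F, ‖a t‖ * ‖x t‖ := by rw [Finset.mul_sum]
      _ ≤ _ := mul_le_mul_of_nonneg_left h2 hc
  have hs : Summable (fun t => ‖w t * x t‖) := summable_of_sum_le (fun _ => norm_nonneg _) h1
  exact ⟨hs.of_norm, (norm_tsum_le_tsum_norm hs).trans (hs.tsum_le_of_sum_le h1)⟩

theorem inv_est (p C : ℂ) (U δ : ℝ) (hδ : δ ≤ 1 / 2) (hU : ‖p‖ ≤ U) (hb : ‖p * C - 1‖ ≤ δ) :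
    ‖C⁻¹ - p‖ ≤ 2 * U * δ ∧ ‖C⁻¹‖ ≤ 2 * U := by
  have h1 : 1 / 2 ≤ ‖p * C‖ := by
    have := norm_sub_norm_le (1:ℂ) (p * C)
    rw [norm_one, norm_sub_rev] at this
    linarith
  have h2 : p * C ≠ 0 := by
    intro h; rw [h, norm_zero] at h1; linarith
  have hC : C ≠ 0 := right_ne_zero_of_mul h2
  have hp : p ≠ 0 := left_ne_zero_of_mul h2
  have hU0 : 0 ≤ U := (norm_nonneg _).trans hU
  have h3 : ‖C⁻¹‖ ≤ 2 * U := by
    have e : C⁻¹ = p / (p * C) := by field_simp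
    rw [e, norm_div, div_le_iff₀ (by linarith)]
    nlinarith
  refine ⟨?_, h3⟩
  have e : C⁻¹ - p = -(C⁻¹ * (p * C - 1)) := by field_simp; ring
  rw [e, norm_neg, norm_mul]
  exact mul_le_mul h3 hb (norm_nonneg _) (by linarith)

theorem ident (w a : ℂ) (h : ∀ j ∈ Finset.range 11, w + (j:ℂ) * a ≠ 0) :
    1 / w - ∑ j ∈ Finset.Icc 1 10, (-1) ^ (j + 1) * ((Nat.choose 10 j : ℕ) : ℂ) * (1 / (w + (j:ℂ) * a))
      = 3628800 * a ^ 10 / ∏ j ∈ Finset.range 11, (w + (j:ℂ) * a) := by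
  have h0 := h 0 (by simp)
  have h1 := h 1 (by simp)
  have h2 := h 2 (by simp)
  have h3 := h 3 (by simp)
  have h4 := h 4 (by simp)
  have h5 := h 5 (by simp)
  have h6 := h 6 (by simp)
  have h7 := h 7 (by simp)
  have h8 := h 8 (by simp)
  have h9 := h 9 (by simp)
  have h10 := h 10 (by simp)
  have e : Finset.Icc 1 10 = ({1, 2, 3, 4, 5, 6, 7, 8, 9, 10} : Finset ℕ) := by decide
  rw [e]
  simp only [Finset.prod_range_succ, Finset.prod_range_zero]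
  rw [Finset.sum_insert (by decide), Finset.sum_insert (by decide), Finset.sum_insert (by decide),
    Finset.sum_insert (by decide), Finset.sum_insert (by decide), Finset.sum_insert (by decide),
    Finset.sum_insert (by decide), Finset.sum_insert (by decide), Finset.sum_insert (by decide),
    Finset.sum_singleton]
  simp only [Nat.choose]
  push_cast at *
  simp only [zero_mul, add_zero, one_mul] at h0 h1 ⊢
  have k2 : w + a * 2 ≠ 0 := by rwa [mul_comm] at h2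
  have k3 : w + a * 3 ≠ 0 := by rwa [mul_comm] at h3
  have k4 : w + a * 4 ≠ 0 := by rwa [mul_comm] at h4
  have k5 : w + a * 5 ≠ 0 := by rwa [mul_comm] at h5
  have k6 : w + a * 6 ≠ 0 := by rwa [mul_comm] at h6
  have k7 : w + a * 7 ≠ 0 := by rwa [mul_comm] at h7
  have k8 : w + a * 8 ≠ 0 := by rwa [mul_comm] at h8
  have k9 : w + a * 9 ≠ 0 := by rwa [mul_comm] at h9
  have k10 : w + a * 10 ≠ 0 := by rwa [mul_comm] at h10
  field_simp
  ring

end H160E1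

open H160E1

theorem est_far (g x : ℤ → ℂ) (M U δ θ d p : ℝ) (hM : 0 ≤ M) (hθ0 : 0 ≤ θ) (hd : 0 < d) (hδ : δ ≤ 1 / 2)
    (hx : ∀ F : Finset ℤ, ∑ n ∈ F, ‖x n‖ ^ 2 ≤ M ^ 2)
    (hU : |p| ≤ U) (hU' : |p + 1 / 2| ≤ U)
    (hb : ‖(p : ℂ) * Ch g p - 1‖ ≤ δ) (hb' : ‖((p : ℂ) + 1 / 2) * Ch g (p + 1 / 2) - 1‖ ≤ δ)
    (hθ : ∀ F : Finset ℤ, ∑ t ∈ F, ‖g t‖ ^ 2 / ‖(p : ℂ) - t‖ ^ 2 ≤ θ ^ 2)
    (hdist : ∀ t : ℤ, g t ≠ 0 → d ≤ |p - t| ∧ d ≤ |p + 1 / 2 - t|) (hd1 : 1 ≤ d) :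
    ‖Ch (fun t => g t * x t) (p + 1 / 2) / Ch g (p + 1 / 2) - Ch (fun t => g t * x t) p / Ch g p‖ ≤
      (1 + 8 * U * δ + U / d) * θ * M := by
  have ha : ∀ F : Finset ℤ, ∑ t ∈ F, ‖g t / ((p : ℂ) - t)‖ ^ 2 ≤ θ ^ 2 := by
    intro F
    simp only [norm_div, div_pow]
    exact hθ F
  obtain ⟨s1, b1⟩ := cs_sum (fun t => g t / ((p : ℂ) - t)) (fun t => g t / ((p : ℂ) - t)) x M θ 1
    hM hθ0 zero_le_one hx ha (fun t => by rw [one_mul])
  have n1 : ∀ t : ℤ, ‖(p : ℂ) - t‖ = |p - t| := by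
    intro t
    rw [← Real.norm_eq_abs, ← Complex.norm_real]; push_cast; rfl
  have n2 : ∀ t : ℤ, ‖(p : ℂ) + 1 / 2 - t‖ = |p + 1 / 2 - t| := by
    intro t
    rw [← Real.norm_eq_abs, ← Complex.norm_real]; push_cast; rfl
  obtain ⟨s2, b2⟩ := cs_sum (fun t => g t / ((p : ℂ) - t))
    (fun t => -(1 / 2) * (g t / ((p : ℂ) - t)) / ((p : ℂ) + 1 / 2 - t)) x M θ (1 / (2 * d))
    hM hθ0 (by positivity) hx ha (by
      intro t
      by_cases h : g t = 0
      · simp [h]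
      · have h2 := (hdist t h).2
        rw [norm_div, norm_mul, norm_neg, n2, div_le_iff₀ (by linarith)]
        have e : ‖(1 / 2 : ℂ)‖ = 1 / 2 := by simp
        rw [e]
        have h3 : 1 / (2 * d) * ‖g t / ((p : ℂ) - t)‖ * d = 1 / 2 * ‖g t / ((p : ℂ) - t)‖ := by
          field_simp
        rw [← h3]
        exact mul_le_mul_of_nonneg_left h2 (by positivity))
  have e1 : Ch (fun t => g t * x t) p = ∑' t, g t / ((p : ℂ) - t) * x t := by
    unfold Ch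
    exact tsum_congr fun t => by ring
  have e2 : Ch (fun t => g t * x t) (p + 1 / 2) = ∑' t, g t / ((p : ℂ) - t) * x t +
      ∑' t, -(1 / 2) * (g t / ((p : ℂ) - t)) / ((p : ℂ) + 1 / 2 - t) * x t := by
    rw [← s1.tsum_add s2]
    unfold Ch
    refine tsum_congr fun t => ?_
    by_cases h : g t = 0
    · simp [h]
    · have h1 : (p : ℂ) - t ≠ 0 := by
        rw [← norm_pos_iff, n1]; linarith [(hdist t h).1]
      have h2 : (p : ℂ) + 1 / 2 - t ≠ 0 := by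
        rw [← norm_pos_iff, n2]; linarith [(hdist t h).2]
      obtain ⟨u, hu⟩ : ∃ u, u = (p : ℂ) - t := ⟨_, rfl⟩
      have e : (p : ℂ) + 1 / 2 - t = u + 1 / 2 := by rw [hu]; ring
      rw [e] at h2 ⊢
      rw [← hu] at h1 ⊢
      have h3 : u * 2 + 1 ≠ 0 := by
        intro h0; apply h2; linear_combination h0 / 2
      field_simp
      ring
  obtain ⟨c1, -⟩ := inv_est (p : ℂ) (Ch g p) U δ hδ (by rw [Complex.norm_real]; exact hU) hb
  obtain ⟨c2, c3⟩ := inv_est ((p : ℂ) + 1 / 2) (Ch g (p + 1 / 2)) U δ hδ (by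
    have := n2 0
    simp only [Int.cast_zero, sub_zero] at this
    rw [this]; exact hU') hb'
  rw [e1, e2]
  generalize (∑' t, g t / ((p : ℂ) - t) * x t) = X at b1 ⊢
  generalize (∑' t, -(1 / 2) * (g t / ((p : ℂ) - t)) / ((p : ℂ) + 1 / 2 - t) * x t) = Y at b2 ⊢
  generalize Ch g (p + 1 / 2) = C' at c2 c3 ⊢
  generalize Ch g p = C at c1 ⊢
  have hU0 : 0 ≤ U := (abs_nonneg _).trans hU
  have hδ0 : 0 ≤ δ := (norm_nonneg _).trans hb
  have h4 : ‖C'⁻¹ - C⁻¹‖ ≤ 1 + 8 * U * δ := by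
    have e : C'⁻¹ - C⁻¹ = (C'⁻¹ - ((p : ℂ) + 1 / 2)) - (C⁻¹ - p) + 1 / 2 := by ring
    rw [e]
    have h5 := norm_add_le ((C'⁻¹ - ((p : ℂ) + 1 / 2)) - (C⁻¹ - p)) (1 / 2)
    have h6 := norm_sub_le (C'⁻¹ - ((p : ℂ) + 1 / 2)) (C⁻¹ - p)
    have e3 : ‖(1 / 2 : ℂ)‖ = 1 / 2 := by simp
    have : 0 ≤ U * δ := by positivity
    linarith
  have e : (X + Y) / C' - X / C = (C'⁻¹ - C⁻¹) * X + C'⁻¹ * Y := by
    rw [div_eq_mul_inv, div_eq_mul_inv]; ring
  rw [e]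
  refine (norm_add_le _ _).trans ?_
  rw [norm_mul, norm_mul]
  have h7 := mul_le_mul h4 b1 (norm_nonneg _) (by positivity)
  have h8 := mul_le_mul c3 b2 (norm_nonneg _) (by positivity)
  have e4 : 2 * U * (1 / (2 * d) * (θ * M)) = U / d * θ * M := by field_simp
  nlinarith

theorem avg_vec (r : ℕ) (hr : 1 ≤ r) : ∃ V : ℤ → ℂ, (∀ n, V n ≠ 0 → n < -1) ∧
    (∀ S : Finset ℤ, ∑ n ∈ S, ‖V n‖ ^ 2 ≤ 2 ^ 20 / r) ∧ (∀ S : Finset ℤ, ∑ n ∈ S, ‖V n‖ ≤ 1023) ∧
    ∀ (z : ℂ) (τ : ℝ), 0 < τ → τ ≤ z.re →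
      ‖Ch (fun t => (if t = -1 then 1 else 0) - V t) z‖ ≤ 3628800 * (2 * r) ^ 10 / τ ^ 11 := by
  have hr0 : (0:ℝ) < r := by exact_mod_cast hr
  have hrc : (r:ℂ) ≠ 0 := by exact_mod_cast hr0.ne'
  obtain ⟨V, hV⟩ : ∃ V : ℤ → ℂ, V = fun n => (1 / (r:ℂ)) * ∑ a ∈ Finset.Ico r (2 * r),
    ∑ j ∈ Finset.Icc 1 10, (-1) ^ (j + 1) * ((Nat.choose 10 j : ℕ) : ℂ) *
      (if n = -1 - (j:ℤ) * (a:ℤ) then 1 else 0) := ⟨_, rfl⟩
  have hch : ∑ j ∈ Finset.Icc 1 10, ((Nat.choose 10 j : ℕ) : ℝ) = 1023 := by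
    have : ∑ j ∈ Finset.Icc 1 10, Nat.choose 10 j = 1023 := by decide
    exact_mod_cast this
  have hcard : ((Finset.Ico r (2 * r)).card : ℝ) = r := by
    rw [Nat.card_Ico]; congr 1; omega
  have hn : ∀ n, ‖V n‖ ≤ (1 / r) * ∑ j ∈ Finset.Icc 1 10, ((Nat.choose 10 j : ℕ) : ℝ) *
      ∑ a ∈ Finset.Ico r (2 * r), (if n = -1 - (j:ℤ) * (a:ℤ) then (1:ℝ) else 0) := by
    intro n
    rw [hV]
    simp only
    rw [norm_mul, norm_div, norm_one, Complex.norm_natCast, Finset.sum_comm]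
    apply mul_le_mul_of_nonneg_left _ (by positivity)
    refine (norm_sum_le _ _).trans (Finset.sum_le_sum fun j _ => ?_)
    rw [Finset.mul_sum]
    refine (norm_sum_le _ _).trans (Finset.sum_le_sum fun a _ => ?_)
    rw [norm_mul, norm_mul, norm_pow, norm_neg, norm_one, one_pow, one_mul, Complex.norm_natCast]
    split_ifs <;> simp
  have hn1 : ∀ n, ‖V n‖ ≤ 1023 / r := by
    intro n
    refine (hn n).trans ?_
    rw [← hch, div_eq_mul_one_div (∑ j ∈ Finset.Icc 1 10, _), mul_comm]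
    apply mul_le_mul_of_nonneg_right _ (by positivity)
    refine Finset.sum_le_sum fun j hj => ?_
    apply mul_le_of_le_one_right (Nat.cast_nonneg _)
    rw [← Finset.sum_filter, Finset.sum_const, nsmul_eq_mul, mul_one]
    have hj1 : (1:ℤ) ≤ j := by exact_mod_cast (Finset.mem_Icc.1 hj).1
    have : ((Finset.Ico r (2 * r)).filter (fun a : ℕ => n = -1 - (j:ℤ) * (a:ℤ))).card ≤ 1 := by
      apply Finset.card_le_one.2
      intro a ha b hb
      have h1 := (Finset.mem_filter.1 ha).2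
      have h2 := (Finset.mem_filter.1 hb).2
      have h3 : (j:ℤ) * (a:ℤ) = j * b := by linarith
      have h4 := mul_left_cancel₀ (by omega : (j:ℤ) ≠ 0) h3
      exact_mod_cast h4
    exact_mod_cast this
  have hs1 : ∀ S : Finset ℤ, ∑ n ∈ S, ‖V n‖ ≤ 1023 := by
    intro S
    refine (Finset.sum_le_sum fun n _ => hn n).trans ?_
    rw [← Finset.mul_sum, Finset.sum_comm]
    have h1 : ∑ j ∈ Finset.Icc 1 10, ∑ n ∈ S, ((Nat.choose 10 j : ℕ) : ℝ) *
        ∑ a ∈ Finset.Ico r (2 * r), (if n = -1 - (j:ℤ) * (a:ℤ) then (1:ℝ) else 0) ≤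
        ∑ j ∈ Finset.Icc 1 10, ((Nat.choose 10 j : ℕ) : ℝ) * r := by
      refine Finset.sum_le_sum fun j _ => ?_
      rw [← Finset.mul_sum, Finset.sum_comm]
      apply mul_le_mul_of_nonneg_left _ (Nat.cast_nonneg _)
      calc ∑ a ∈ Finset.Ico r (2 * r), ∑ n ∈ S, (if n = -1 - (j:ℤ) * (a:ℤ) then (1:ℝ) else 0)
          ≤ ∑ a ∈ Finset.Ico r (2 * r), (1:ℝ) := by
            refine Finset.sum_le_sum fun a _ => ?_
            rw [Finset.sum_ite_eq']
            split_ifs <;> norm_num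
        _ = r := by rw [Finset.sum_const, nsmul_eq_mul, mul_one, hcard]
    rw [← Finset.sum_mul, hch] at h1
    refine (mul_le_mul_of_nonneg_left h1 (by positivity)).trans (le_of_eq ?_)
    field_simp
  refine ⟨V, ?_, ?_, hs1, ?_⟩
  · intro n hn0
    by_contra hc
    apply hn0
    rw [hV]
    simp only
    apply mul_eq_zero_of_right
    refine Finset.sum_eq_zero fun a ha => Finset.sum_eq_zero fun j hj => ?_
    have hj1 : (1:ℤ) ≤ j := by exact_mod_cast (Finset.mem_Icc.1 hj).1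
    have ha1 : (1:ℤ) ≤ a := by exact_mod_cast hr.trans (Finset.mem_Ico.1 ha).1
    rw [if_neg, mul_zero]
    intro h
    nlinarith
  · intro S
    calc ∑ n ∈ S, ‖V n‖ ^ 2 ≤ ∑ n ∈ S, 1023 / r * ‖V n‖ := by
          refine Finset.sum_le_sum fun n _ => ?_
          rw [pow_two]
          exact mul_le_mul_of_nonneg_right (hn1 n) (norm_nonneg _)
      _ = 1023 / r * ∑ n ∈ S, ‖V n‖ := by rw [Finset.mul_sum]
      _ ≤ 1023 / r * 1023 := mul_le_mul_of_nonneg_left (hs1 S) (by positivity)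
      _ ≤ 2 ^ 20 / r := by
          rw [div_mul_eq_mul_div]
          exact div_le_div_of_nonneg_right (by norm_num) hr0.le
  · intro z τ hτ hz
    have hone : ∀ c : ℤ, HasSum (fun t : ℤ => (if t = c then (1:ℂ) else 0) / (z - t))
        (1 / (z - c)) := by
      intro c
      have := hasSum_single (f := fun t : ℤ => (if t = c then (1:ℂ) else 0) / (z - t)) c
        (fun t ht => by simp [ht])
      simpa using this
    have hVs : HasSum (fun t : ℤ => V t / (z - t)) ((1 / (r:ℂ)) * ∑ a ∈ Finset.Ico r (2 * r),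
        ∑ j ∈ Finset.Icc 1 10, (-1) ^ (j + 1) * ((Nat.choose 10 j : ℕ) : ℂ) *
          (1 / (z - ((-1 - (j:ℤ) * (a:ℤ) : ℤ) : ℂ)))) := by
      have h1 := (hasSum_sum (s := Finset.Ico r (2 * r)) fun (a : ℕ) _ =>
        hasSum_sum (s := Finset.Icc 1 10) fun (j : ℕ) _ =>
          (hone (-1 - (j:ℤ) * (a:ℤ))).mul_left
            ((-1) ^ (j + 1) * ((Nat.choose 10 j : ℕ) : ℂ))).mul_left (1 / (r:ℂ))
      refine (funext fun t => ?_ : (fun t : ℤ => V t / (z - t)) = _) ▸ h1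
      rw [hV]
      simp only
      rw [mul_div_assoc, Finset.sum_div]
      congr 1
      refine Finset.sum_congr rfl fun a _ => ?_
      rw [Finset.sum_div]
      refine Finset.sum_congr rfl fun j _ => ?_
      ring
    have h2 := (hone (-1)).sub hVs
    have e1 : Ch (fun t => (if t = -1 then 1 else 0) - V t) z =
        (1 / (r:ℂ)) * ∑ a ∈ Finset.Ico r (2 * r), (1 / (z + 1) -
          ∑ j ∈ Finset.Icc 1 10, (-1) ^ (j + 1) * ((Nat.choose 10 j : ℕ) : ℂ) *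
            (1 / (z + 1 + (j:ℂ) * (a:ℂ)))) := by
      unfold Ch
      simp only [sub_div]
      rw [h2.tsum_eq, Finset.sum_sub_distrib, Finset.sum_const, Nat.card_Ico, mul_sub]
      have e : 2 * r - r = r := by omega
      rw [e, nsmul_eq_mul]
      congr 1
      · push_cast
        rw [sub_neg_eq_add]
        field_simp
      · congr 1
        refine Finset.sum_congr rfl fun a _ => Finset.sum_congr rfl fun j _ => ?_
        congr 2
        push_cast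
        ring
    have hlow : ∀ j a : ℕ, τ ≤ ‖z + 1 + (j:ℂ) * (a:ℂ)‖ := by
      intro j a
      refine le_trans ?_ (Complex.re_le_norm _)
      have e : (z + 1 + (j:ℂ) * (a:ℂ)).re = z.re + 1 + j * a := by simp
      rw [e]
      have : (0:ℝ) ≤ (j:ℝ) * a := by positivity
      linarith
    rw [e1, norm_mul, norm_div, norm_one, Complex.norm_natCast]
    have h3 : ‖∑ a ∈ Finset.Ico r (2 * r), (1 / (z + 1) -
          ∑ j ∈ Finset.Icc 1 10, (-1) ^ (j + 1) * ((Nat.choose 10 j : ℕ) : ℂ) *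
            (1 / (z + 1 + (j:ℂ) * (a:ℂ))))‖ ≤
        ∑ a ∈ Finset.Ico r (2 * r), 3628800 * (2 * (r:ℝ)) ^ 10 / τ ^ 11 := by
      refine (norm_sum_le _ _).trans (Finset.sum_le_sum fun a ha => ?_)
      rw [ident (z + 1) a (fun j _ => by
        rw [← norm_pos_iff]; exact hτ.trans_le (hlow j a))]
      rw [norm_div, norm_mul, norm_pow, Complex.norm_natCast, norm_prod]
      have h4 : τ ^ 11 ≤ ∏ j ∈ Finset.range 11, ‖z + 1 + (j:ℂ) * (a:ℂ)‖ := by
        calc τ ^ 11 = ∏ j ∈ Finset.range 11, τ := by rw [Finset.prod_const, Finset.card_range]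
          _ ≤ _ := Finset.prod_le_prod (fun _ _ => hτ.le) (fun j _ => hlow j a)
      have h5 : (a:ℝ) ≤ 2 * r := by exact_mod_cast (Finset.mem_Ico.1 ha).2.le
      have e5 : ‖(3628800 : ℂ)‖ = 3628800 := by simp
      rw [e5]
      gcongr
    rw [Finset.sum_const, nsmul_eq_mul, hcard] at h3
    refine (mul_le_mul_of_nonneg_left h3 (by positivity)).trans (le_of_eq ?_)
    field_simp

end Pool.Agent.H590Z.HC
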