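import Mathlib
import Pool.Agent.MP06ac62.Defs
import Pool.Agent.MP06ac62.L4a
import Pool.Agent.H160Z.Peak
import Pool.Agent.H160Z.Borel

set_option linter.all false
set_option maxHeartbeats 1000000

namespace H160Z

open MinMod
open MinMod.L4a
open Metric Filter Topology

theorem window_tendsto (d : ℝ) (hd : 0 < d) :
    Tendsto (fun lam : ℝ => (2 / lam * Real.log (2 / (d / lam) ^ 2)) ^ 2 * (lam * Real.sqrt lam))
      atTop (𝓝 0) := by
  have h0 := Real.tendsto_pow_log_div_mul_add_atTop 1 0 0 one_ne_zero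
  have h1 := Real.tendsto_pow_log_div_mul_add_atTop 1 0 1 one_ne_zero
  have h2 := Real.tendsto_pow_log_div_mul_add_atTop 1 0 2 one_ne_zero
  obtain ⟨c0, hc0⟩ : ∃ c0, c0 = Real.log (2 / d ^ 2) := ⟨_, rfl⟩
  have h3 := ((h0.const_mul (4 * c0 ^ 2)).add (h1.const_mul (32 * c0))).add (h2.const_mul 64)
  simp only [mul_zero, add_zero] at h3
  have h4 := h3.comp Real.tendsto_sqrt_atTop
  refine h4.congr' ?_
  filter_upwards [eventually_gt_atTop (0:ℝ)] with lam hlam
  have hs : 0 < Real.sqrt lam := Real.sqrt_pos.2 hlam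
  have hss : Real.sqrt lam ^ 2 = lam := Real.sq_sqrt hlam.le
  have e1 : Real.log (2 / (d / lam) ^ 2) = c0 + 4 * Real.log (Real.sqrt lam) := by
    have e2 : 2 / (d / lam) ^ 2 = 2 / d ^ 2 * Real.sqrt lam ^ 4 := by
      have : Real.sqrt lam ^ 4 = lam ^ 2 := by
        calc Real.sqrt lam ^ 4 = (Real.sqrt lam ^ 2) ^ 2 := by ring
          _ = lam ^ 2 := by rw [hss]
      rw [this]; field_simp
    rw [e2, Real.log_mul (by positivity) (by positivity), Real.log_pow, hc0]
    push_cast; ring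
  simp only [Function.comp]
  rw [e1]
  generalize Real.log (Real.sqrt lam) = l
  generalize Real.sqrt lam = s at hs hss
  subst hss
  field_simp
  ring

theorem inf_facts (f : ℂ → ℂ) (hf : Differentiable ℂ f)
    (hlim : limsup (fun r : ℝ => ((Real.log (aF f r) / Real.log r : ℝ) : EReal)) atTop = ⊤) :
    (∃ z0, f z0 ≠ 0 ∧ (∀ r, ‖z0‖ ≤ r → 0 < maxMod f r) ∧
      (∀ r s, ‖z0‖ ≤ r → r ≤ s → aF f r ≤ aF f s)) ∧
    (∀ K : ℝ, ∃ᶠ r : ℝ in atTop, K * Real.log r < Real.log (aF f r)) ∧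
    Tendsto (aF f) atTop atTop := by
  have hfr : ∀ K : ℝ, ∃ᶠ r : ℝ in atTop, K * Real.log r < Real.log (aF f r) := by
    intro K
    have h1 : (K : EReal) <
        limsup (fun r : ℝ => ((Real.log (aF f r) / Real.log r : ℝ) : EReal)) atTop := by
      rw [hlim]; exact EReal.coe_lt_top K
    have h2 := Filter.frequently_lt_of_lt_limsup (by isBoundedDefault) h1
    refine (h2.and_eventually (eventually_gt_atTop (1:ℝ))).mono ?_
    rintro r ⟨hr, hr1⟩
    have h3 : K < Real.log (aF f r) / Real.log r := by exact_mod_cast hr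
    rwa [lt_div_iff₀ (Real.log_pos hr1)] at h3
  have hne : ∃ z, f z ≠ 0 := by
    by_contra hcon
    push Not at hcon
    have hz : ∀ r, aF f r = 0 := by
      intro r
      have : maxMod f r = 0 := by
        unfold maxMod
        simp [hcon]
      unfold aF
      rw [this, Real.log_zero]
    obtain ⟨r, hr, hr1⟩ := ((hfr 1).and_eventually (eventually_gt_atTop (1:ℝ))).exists
    rw [hz r, Real.log_zero] at hr
    have := Real.log_pos hr1
    linarith
  obtain ⟨z0, hz0⟩ := hne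
  have hMpos : ∀ r, ‖z0‖ ≤ r → 0 < maxMod f r := by
    intro r hr
    have h1 : 0 < ‖f z0‖ := norm_pos_iff.mpr hz0
    have h2 := le_maxMod f hf z0
    have h3 := maxMod_mono f hf ‖z0‖ r (norm_nonneg _) hr
    linarith
  have hamono : ∀ r s, ‖z0‖ ≤ r → r ≤ s → aF f r ≤ aF f s := by
    intro r s hr hrs
    exact Real.log_le_log (hMpos r hr) (maxMod_mono f hf r s ((norm_nonneg _).trans hr) hrs)
  refine ⟨⟨z0, hz0, hMpos, hamono⟩, hfr, ?_⟩
  rw [Filter.tendsto_atTop]
  intro B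
  obtain ⟨r, hr1, hr2⟩ := frequently_atTop.1 (hfr 1) (max ‖z0‖ (|B| + |aF f ‖z0‖| + 2))
  have h3 : ‖z0‖ ≤ r := (le_max_left _ _).trans hr1
  have h4 : |B| + |aF f ‖z0‖| + 2 ≤ r := (le_max_right _ _).trans hr1
  have hB0 : 0 ≤ |B| := abs_nonneg _
  have hz00 : 0 ≤ |aF f ‖z0‖| := abs_nonneg _
  have hlr : 0 < Real.log r := Real.log_pos (by linarith)
  have hne0 : aF f r ≠ 0 := by
    intro h0
    rw [h0, Real.log_zero] at hr2
    linarith
  rw [← Real.log_abs (aF f r), one_mul] at hr2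
  have h5 : r < |aF f r| := (Real.log_lt_log_iff (by linarith) (abs_pos.mpr hne0)).mp hr2
  have h6 := hamono ‖z0‖ r le_rfl h3
  have h7 : 0 < aF f r := by
    by_contra hcon
    push Not at hcon
    rw [abs_of_nonpos hcon] at h5
    have := neg_abs_le (aF f ‖z0‖)
    linarith
  rw [abs_of_pos h7] at h5
  filter_upwards [eventually_ge_atTop r] with s hs
  have := hamono r s h3 hs
  have := le_abs_self B
  linarith

theorem lower_inf (ε : ℝ) (hε : 0 < ε) (hε1 : ε ≤ 1) (f : ℂ → ℂ) (hf : Differentiable ℂ f)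
    (hlim : limsup (fun r : ℝ => ((Real.log (aF f r) / Real.log r : ℝ) : EReal)) atTop = ⊤)
    (T : ℝ) (hT : 0 ≤ T)
    (hsmall : ∀ᶠ r : ℝ in atTop, ∃ z : ℂ, ‖z‖ = r ∧
      ‖f z‖ ≤ Real.exp (-(T * (aF f r * Real.log (Real.log (aF f r)))))) :
    T ≤ 2 + 7 * ε := by
  obtain ⟨lam0, hlam0, d, hd, hd4, hpeak⟩ := peak_q ε hε hε1
  obtain ⟨⟨z0, hz0, hMpos, hamono⟩, hfr, hatop⟩ := inf_facts f hf hlim
  obtain ⟨Cf, hpk⟩ := hpeak f hf ⟨z0, hz0⟩
  obtain ⟨p, hp⟩ := exists_nat_ge (1 / ε)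
  have hpε : 1 ≤ p * ε := by rwa [div_le_iff₀ hε] at hp
  have hp1r : (1:ℝ) ≤ p := by
    have : 1 ≤ 1 / ε := by rw [le_div_iff₀ hε]; linarith
    linarith
  have hp1 : 1 ≤ p := by exact_mod_cast hp1r
  -- eventual properties of large L
  have hL1 : ∀ᶠ L : ℝ in atTop, |Cf| * (p + 1) ^ 2 * L ^ 4 ≤ Real.exp L := by
    have h1 := (Real.tendsto_exp_div_pow_atTop 4).eventually_ge_atTop (|Cf| * (p + 1) ^ 2)
    filter_upwards [h1, eventually_gt_atTop (0:ℝ)] with L h2 h3
    rwa [le_div_iff₀ (by positivity)] at h2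
  have hL2 : ∀ᶠ L : ℝ in atTop, Real.log (p + 1) / ε + 1 ≤ Real.log L :=
    Real.tendsto_log_atTop.eventually_ge_atTop _
  have hlogtop : Tendsto (fun r => Real.log (aF f r)) atTop atTop :=
    Real.tendsto_log_atTop.comp hatop
  obtain ⟨r1, hr1⟩ := (((hatop.eventually_ge_atTop 1).and (hlogtop.eventually (hL1.and hL2))).and
    (hsmall.and (hlogtop.eventually_ge_atTop 1))).exists_forall_of_atTop
  set R : ℝ := max r1 (max 1 ‖z0‖) with hR
  have hR1 : 1 ≤ R := le_max_of_le_right (le_max_left _ _)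
  have hRz : ‖z0‖ ≤ R := le_max_of_le_right (le_max_right _ _)
  have hRr : r1 ≤ R := le_max_left _ _
  set τ0 : ℝ := Real.log R with hτ0
  have hexp0 : Real.exp τ0 = R := Real.exp_log (by linarith)
  have hge : ∀ τ, τ0 ≤ τ → R ≤ Real.exp τ := by
    intro τ hτ
    rw [← hexp0]; exact Real.exp_le_exp.mpr hτ
  have hprop := fun τ (hτ : τ0 ≤ τ) => hr1 (Real.exp τ) (hRr.trans (hge τ hτ))
  set L : ℝ → ℝ := fun τ => Real.log (aF f (Real.exp τ)) with hL
  have hmono : MonotoneOn L (Set.Ici τ0) := by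
    intro x hx y hy hxy
    have hx' : τ0 ≤ x := hx
    have h1 := (hprop x hx').1.1
    exact Real.log_le_log (by linarith) (hamono _ _ (hRz.trans (hge x hx')) (Real.exp_le_exp.mpr hxy))
  have hsup : ∀ K : ℝ, ∃ᶠ τ in atTop, K * τ ≤ L τ := by
    intro K
    have h1 := (hfr K).and_eventually (eventually_gt_atTop (0:ℝ))
    refine Real.tendsto_log_atTop.frequently (p := fun τ => K * τ ≤ L τ) (h1.mono ?_)
    rintro r ⟨hr, hr0⟩
    simp only [hL]
    rw [Real.exp_log hr0]
    exact hr.le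
  obtain ⟨τ, hτ, lam, hlam, hLτ, hlamp, hH1, hpeakτ⟩ := borel_peak L τ0 hmono hsup p hp1
    (fun lam => 2 / lam * Real.log (2 / (d / lam) ^ 2)) (window_tendsto d hd) (ε / 20)
    (by linarith) (by linarith) lam0 (max 1 (τ0 + 1))
  obtain ⟨H, hHdef⟩ : ∃ H, H = 2 / lam * Real.log (2 / (d / lam) ^ 2) := ⟨_, rfl⟩
  have hpk2 := hpk lam hlam
  rw [← hHdef] at hH1 hpeakτ hpk2
  have hH := abs_le.1 hH1
  have hτH : 1 ≤ τ := (le_max_left _ _).trans hτ
  have hτ0H : τ0 + 1 ≤ τ := (le_max_right _ _).trans hτ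
  have hτ0' : τ0 ≤ τ := by linarith
  have hA1 : 1 ≤ aF f (Real.exp τ) := (hprop τ hτ0').1.1
  have hlam1 : 1 < lam := by linarith
  have h6 : aF f (Real.exp τ) = Real.exp (L τ) := by
    simp only [hL]; rw [Real.exp_log (by linarith)]
  have hq1 : |Cf| * (p + 1) ^ 2 * L τ ^ 4 ≤ Real.exp (L τ) := (hprop τ hτ0').1.2.1
  have hq2 : Real.log (p + 1) / ε + 1 ≤ Real.log (L τ) := (hprop τ hτ0').1.2.2
  have hlamL : lam ≤ (p + 1) * L τ ^ 2 := by
    have h1 : lam ^ p ≤ ((p + 1) * L τ ^ 2) ^ p := by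
      refine hlamp.trans ?_
      rw [mul_pow, ← pow_mul]
      apply mul_le_mul_of_nonneg_left _ (by positivity)
      exact pow_le_pow_right₀ hLτ (by omega)
    exact le_of_pow_le_pow_left₀ (by omega) (by positivity) h1
  have hACf : Cf * lam ^ 2 ≤ aF f (Real.exp τ) := by
    rw [h6]
    refine le_trans ?_ hq1
    have h1 : lam ^ 2 ≤ ((p + 1) * L τ ^ 2) ^ 2 := pow_le_pow_left₀ (by linarith) hlamL 2
    calc Cf * lam ^ 2 ≤ |Cf| * lam ^ 2 := mul_le_mul_of_nonneg_right (le_abs_self _) (by positivity)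
      _ ≤ |Cf| * ((p + 1) * L τ ^ 2) ^ 2 := mul_le_mul_of_nonneg_left h1 (abs_nonneg _)
      _ = _ := by ring
  have hlp : 0 ≤ Real.log ((p:ℝ) + 1) := Real.log_nonneg (by linarith)
  have hlp2 : 0 ≤ Real.log ((p:ℝ) + 1) / ε := by positivity
  have hmain := hpk2 (Real.exp τ) (Real.exp_le_exp.mpr (by linarith)) (aF f (Real.exp τ)) hACf
    (by
      intro s hs z hz
      rw [← Real.exp_add] at hz
      have hs' := abs_le.mp hs
      have hτs : τ0 ≤ τ + s := by linarith [hs'.1]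
      have h1 := le_maxMod f hf z
      rw [hz] at h1
      have h2 : 0 < maxMod f (Real.exp (τ + s)) := hMpos _ (hRz.trans (hge _ hτs))
      have h3 : maxMod f (Real.exp (τ + s)) = Real.exp (aF f (Real.exp (τ + s))) := by
        unfold aF; rw [Real.exp_log h2]
      rw [h3] at h1
      refine h1.trans (Real.exp_le_exp.mpr ?_)
      have h4 : 1 ≤ aF f (Real.exp (τ + s)) := (hprop _ hτs).1.1
      have h5 : aF f (Real.exp (τ + s)) = Real.exp (L (τ + s)) := by
        simp only [hL]; rw [Real.exp_log (by linarith)]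
      rw [h5, h6, ← Real.exp_add]
      refine Real.exp_le_exp.mpr ?_
      have := hpeakτ s hs
      linarith)
    (T * Real.log (L τ))
    (by
      intro s hs0 hsH
      have hτs : τ0 ≤ τ + s := by linarith
      obtain ⟨z, hz1, hz2⟩ := (hprop _ hτs).2.1
      refine ⟨z, by rw [hz1, Real.exp_add], hz2.trans (Real.exp_le_exp.mpr ?_)⟩
      have h1 : aF f (Real.exp τ) ≤ aF f (Real.exp (τ + s)) :=
        hamono _ _ (hRz.trans (hge _ hτ0')) (Real.exp_le_exp.mpr (by linarith))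
      have h2 : L τ ≤ L (τ + s) := hmono (Set.mem_Ici.2 hτ0') (Set.mem_Ici.2 hτs) (by linarith)
      have h3 : Real.log (L τ) ≤ Real.log (L (τ + s)) := Real.log_le_log (by linarith) h2
      have h4 : aF f (Real.exp τ) * Real.log (L τ) ≤
          aF f (Real.exp (τ + s)) * Real.log (L (τ + s)) :=
        mul_le_mul h1 h3 (by linarith) (by linarith)
      have h5 := mul_le_mul_of_nonneg_left h4 hT
      have e : T * Real.log (L τ) * aF f (Real.exp τ) =
        T * (aF f (Real.exp τ) * Real.log (L τ)) := by ring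
      rw [e]
      exact neg_le_neg h5)
  have hlog : p * Real.log lam ≤ p * Real.log (p + 1) + (p + 1) * Real.log (L τ) := by
    have h1 := Real.log_le_log (by positivity) hlamp
    rw [Real.log_pow, Real.log_mul (by positivity) (by positivity), Real.log_pow, Real.log_pow] at h1
    push_cast at h1
    exact h1
  obtain ⟨l, hl⟩ : ∃ l, l = Real.log (L τ) := ⟨_, rfl⟩
  rw [← hl] at hlog hmain hq2
  have hl0 : 0 < l := by linarith
  have h7 : Real.log (p + 1) ≤ ε * l := by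
    have : Real.log (p + 1) / ε ≤ l := by linarith
    rw [div_le_iff₀ hε] at this
    linarith
  have h8 : Real.log lam ≤ (1 + 2 * ε) * l := by
    have h9 : p * Real.log (p + 1) ≤ p * (ε * l) := mul_le_mul_of_nonneg_left h7 (by linarith)
    have h10 : l ≤ p * ε * l := le_mul_of_one_le_left hl0.le hpε
    have h11 : p * Real.log lam ≤ p * ((1 + 2 * ε) * l) := by nlinarith
    exact le_of_mul_le_mul_left h11 (by linarith)
  have h12 : T * l ≤ (2 + 7 * ε) * l := by
    have h13 := mul_le_mul_of_nonneg_left h8 (by linarith : 0 ≤ 2 + ε)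
    have h14 : (2 + ε) * (1 + 2 * ε) ≤ 2 + 7 * ε := by nlinarith
    have h15 := mul_le_mul_of_nonneg_right h14 hl0.le
    nlinarith
  exact le_of_mul_le_mul_right h12 hl0

end H160Z
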