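import Mathlib

set_option linter.all false
set_option maxHeartbeats 1000000

namespace H160Z

open Metric Filter Topology

theorem prod_ent (G : ℕ → ℂ → ℂ) (hG : ∀ j, Differentiable ℂ (G j))
    (hs : ∀ R : ℝ, ∃ u : ℕ → ℝ, Summable u ∧ ∀ᶠ j in atTop, ∀ z ∈ ball (0:ℂ) R, ‖G j z - 1‖ ≤ u j) :
    Differentiable ℂ (fun z => ∏' j, G j z) ∧ (∀ z, Multipliable (fun j => G j z)) ∧
      ∀ z, (∀ j, G j z ≠ 0) → ∏' j, G j z ≠ 0 := by
  have key : ∀ R : ℝ, HasProdLocallyUniformlyOn G (fun z => ∏' j, G j z) (ball (0:ℂ) R) := by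
    intro R
    obtain ⟨u, hu, hb⟩ := hs R
    have := Summable.hasProdLocallyUniformlyOn_nat_one_add (f := fun j z => G j z - 1)
      isOpen_ball hu hb (fun j => ((hG j).continuous.sub continuous_const).continuousOn)
    simpa using this
  refine ⟨fun z => ?_, fun z => ?_, fun z hz => ?_⟩
  · have h1 := (key (‖z‖ + 1)).tendstoLocallyUniformlyOn_finsetRange
    have h2 := h1.differentiableOn (Eventually.of_forall fun n => by
      apply Differentiable.differentiableOn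
      intro w
      exact DifferentiableAt.fun_finset_prod (fun j _ => hG j w)) isOpen_ball
    exact h2.differentiableAt (isOpen_ball.mem_nhds (by simp))
  · exact ((key (‖z‖ + 1)).hasProd (by simp)).multipliable
  · obtain ⟨u, hu, hb⟩ := hs (‖z‖ + 1)
    have h1 : Summable (fun j => ‖G j z - 1‖) := by
      refine hu.of_norm_bounded_eventually_nat ?_
      filter_upwards [hb] with j hj
      rw [norm_norm]
      exact hj z (by simp)
    have := tprod_one_add_ne_zero_of_summable (f := fun j => G j z - 1) (by simpa using hz) h1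
    simpa using this

theorem prod_factor (G : ℕ → ℂ → ℂ) (hG : ∀ j, Differentiable ℂ (G j))
    (hs : ∀ R : ℝ, ∃ u : ℕ → ℝ, Summable u ∧ ∀ᶠ j in atTop, ∀ z ∈ ball (0:ℂ) R, ‖G j z - 1‖ ≤ u j)
    (j0 : ℕ) : ∃ h : ℂ → ℂ, Differentiable ℂ h ∧ ∀ z, ∏' j, G j z = G j0 z * h z := by
  obtain ⟨h1, h2, -⟩ := prod_ent (fun j z => if j = j0 then 1 else G j z) (by
    intro j
    by_cases hj : j = j0
    · simp only [hj, if_true]; exact differentiable_const _
    · simp only [hj, if_false]; exact hG j) (by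
    intro R
    obtain ⟨u, hu, hb⟩ := hs R
    refine ⟨u, hu, ?_⟩
    filter_upwards [hb, eventually_ne_atTop j0] with j hj hj0 z hz
    simp only [hj0, if_false]
    exact hj z hz)
  refine ⟨_, h1, fun z => ?_⟩
  apply Multipliable.tprod_eq_mul_tprod_ite'
  refine (h2 z).congr fun j => ?_
  by_cases hj : j = j0
  · subst hj; simp
  · simp [hj, Function.update_of_ne hj]

theorem prod_bound (G : ℕ → ℂ) (hG : Multipliable G) (b : ℕ → ℝ) (K : ℝ)
    (hb : ∀ j, ‖G j‖ ≤ Real.exp (b j)) (hK : ∀ s : Finset ℕ, ∑ j ∈ s, b j ≤ K) :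
    ‖∏' j, G j‖ ≤ Real.exp K := by
  have h1 := hG.hasProd.tendsto_prod_nat.norm
  refine le_of_tendsto' h1 fun n => ?_
  rw [norm_prod]
  refine (Finset.prod_le_prod (fun j _ => norm_nonneg _) (fun j _ => hb j)).trans ?_
  rw [← Real.exp_sum]
  exact Real.exp_le_exp.2 (hK _)

theorem sum_exp_abs (c : ℝ) (hc : 0 < c) : ∃ S : ℝ, 0 < S ∧ ∀ ρ : ℝ, ∀ s : Finset ℕ,
    ∑ j ∈ s, Real.exp (-(c * |ρ - j|)) ≤ S := by
  have h0 : Summable (fun n : ℕ => Real.exp (n * (-c))) :=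
    Real.summable_exp_nat_mul_iff.2 (by linarith)
  have h1 : Summable (fun k : ℤ => Real.exp c * Real.exp (-(c * |(k:ℝ)|))) := by
    apply Summable.mul_left
    apply Summable.of_nat_of_neg
    · refine h0.congr fun n => ?_
      congr 1
      simp [mul_comm]
    · refine h0.congr fun n => ?_
      congr 1
      simp [mul_comm]
  refine ⟨∑' k : ℤ, Real.exp c * Real.exp (-(c * |(k:ℝ)|)) + 1, ?_, fun ρ s => ?_⟩
  · have : 0 ≤ ∑' k : ℤ, Real.exp c * Real.exp (-(c * |(k:ℝ)|)) :=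
      tsum_nonneg fun k => by positivity
    linarith
  · have hinj : Set.InjOn (fun j : ℕ => (j:ℤ) - ⌊ρ⌋) s := by
      intro a _ b _ hab
      simp only at hab
      omega
    have h2 : ∑ j ∈ s, Real.exp (-(c * |ρ - j|)) ≤
        ∑ j ∈ s, Real.exp c * Real.exp (-(c * |(((j:ℤ) - ⌊ρ⌋ : ℤ) : ℝ)|)) := by
      refine Finset.sum_le_sum fun j _ => ?_
      rw [← Real.exp_add]
      apply Real.exp_le_exp.2
      have h3 := Int.floor_le ρ
      have h4 := Int.lt_floor_add_one ρ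
      have h5 : |(((j:ℤ) - ⌊ρ⌋ : ℤ) : ℝ)| ≤ |ρ - j| + 1 := by
        push_cast
        rw [abs_le]
        have := le_abs_self (ρ - j)
        have := neg_abs_le (ρ - j)
        constructor <;> linarith
      nlinarith
    have h6 := Finset.sum_image (f := fun k : ℤ => Real.exp c * Real.exp (-(c * |(k:ℝ)|))) hinj
    have h7 := h1.sum_le_tsum (s.image (fun j : ℕ => (j:ℤ) - ⌊ρ⌋)) (fun k _ => by positivity)
    linarith

theorem defect (r D : ℝ) (hD : 0 ≤ D) (hr : D ≤ r) (u v : ℂ) (hu : ‖u‖ = 1) (hv : ‖v‖ = 1) :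
    ‖(r:ℂ) * u + D * v‖ ≤ r + D - D * ‖u - v‖ ^ 2 / 4 := by
  have hu2 : u.re ^ 2 + u.im ^ 2 = 1 := by
    have := Complex.sq_norm u
    rw [hu, Complex.normSq_apply] at this
    linarith
  have hv2 : v.re ^ 2 + v.im ^ 2 = 1 := by
    have := Complex.sq_norm v
    rw [hv, Complex.normSq_apply] at this
    linarith
  have h1 : ‖(r:ℂ) * u + D * v‖ ^ 2 = (r + D) ^ 2 - r * D * ‖u - v‖ ^ 2 := by
    rw [Complex.sq_norm, Complex.sq_norm, Complex.normSq_apply, Complex.normSq_apply]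
    simp only [Complex.add_re, Complex.add_im, Complex.sub_re, Complex.sub_im, Complex.re_ofReal_mul,
      Complex.im_ofReal_mul]
    linear_combination (r ^ 2 + r * D) * hu2 + (D ^ 2 + r * D) * hv2
  have h2 : ‖u - v‖ ≤ 2 := by
    have := norm_sub_le u v
    linarith
  obtain ⟨t, ht⟩ : ∃ t, t = ‖u - v‖ ^ 2 := ⟨_, rfl⟩
  have ht0 : 0 ≤ t := by rw [ht]; positivity
  have ht4 : t ≤ 4 := by rw [ht]; nlinarith [norm_nonneg (u - v)]
  rw [← ht] at h1 ⊢
  have h3 : 0 ≤ r + D - D * t / 4 := by nlinarith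
  apply le_of_pow_le_pow_left₀ (two_ne_zero) h3
  rw [h1]
  have h4 : 0 ≤ D * t * (r - D) := by
    apply mul_nonneg (mul_nonneg hD ht0); linarith
  nlinarith [sq_nonneg (D * t / 4)]

theorem sep (α : ℝ) (hα : 0 < α) (j k : ℕ) (hjk : j ≠ k) (h : α * |(j:ℝ) - k| ≤ 1 / 2) :
    α / 2 ≤ ‖Complex.exp ((α * j : ℝ) * Complex.I) - Complex.exp ((α * k : ℝ) * Complex.I)‖ := by
  obtain ⟨x, hx⟩ : ∃ x : ℝ, x = α * (j - k) := ⟨_, rfl⟩
  have e : Complex.exp ((α * j : ℝ) * Complex.I) - Complex.exp ((α * k : ℝ) * Complex.I) =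
      Complex.exp ((α * k : ℝ) * Complex.I) * (Complex.exp (x * Complex.I) - 1) := by
    rw [mul_sub, ← Complex.exp_add, mul_one, hx]
    congr 2
    push_cast; ring
  rw [e, norm_mul, Complex.norm_exp_ofReal_mul_I, one_mul]
  have hxa : |x| = α * |(j:ℝ) - k| := by rw [hx, abs_mul, abs_of_pos hα]
  have h1 : (1:ℝ) ≤ |(j:ℝ) - k| := by
    have h2 : (1:ℤ) ≤ |(j:ℤ) - k| := Int.one_le_abs (by omega)
    exact_mod_cast h2
  have hn : ‖(x:ℂ) * Complex.I‖ = |x| := by simp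
  have h3 := Complex.norm_exp_sub_one_sub_id_le (x := x * Complex.I) (by rw [hn]; linarith)
  rw [hn] at h3
  have h4 : ‖(x:ℂ) * Complex.I‖ ≤ ‖Complex.exp (x * Complex.I) - 1‖ +
      ‖Complex.exp (x * Complex.I) - 1 - x * Complex.I‖ := by
    calc ‖(x:ℂ) * Complex.I‖ = ‖(Complex.exp (x * Complex.I) - 1) -
        (Complex.exp (x * Complex.I) - 1 - x * Complex.I)‖ := by congr 1; ring
      _ ≤ _ := norm_sub_le _ _
  rw [hn] at h4
  have h5 : α ≤ |x| := by rw [hxa]; nlinarith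
  have h6 : |x| ≤ 1 / 2 := by rw [hxa]; exact h
  nlinarith [abs_nonneg x]

theorem pow_sub_one_le (w : ℂ) (M : ℕ) (t : ℝ) (h : M * ‖w - 1‖ ≤ t) (ht : t ≤ 1) :
    ‖w ^ M - 1‖ ≤ 2 * t := by
  have h1 := Finset.norm_prod_one_add_sub_one_le (Finset.range M) (fun _ => w - 1)
  simp only [add_sub_cancel, Finset.prod_const, Finset.card_range, Finset.sum_const,
    nsmul_eq_mul] at h1
  have h0 : 0 ≤ (M:ℝ) * ‖w - 1‖ := by positivity
  have h2 := Real.abs_exp_sub_one_le (x := M * ‖w - 1‖) (by rw [abs_of_nonneg h0]; linarith)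
  rw [abs_of_nonneg h0] at h2
  have h3 := le_abs_self (Real.exp (M * ‖w - 1‖) - 1)
  linarith

theorem ent_zero (h : ℂ → ℂ) (hh : Differentiable ℂ h) (z0 : ℂ) (h0 : h z0 = 0) :
    ∃ g : ℂ → ℂ, Differentiable ℂ g ∧ ∀ z, h z = (z - z0) * g z := by
  refine ⟨dslope h z0, ?_, fun z => ?_⟩
  · rw [← differentiableOn_univ]
    exact (Complex.differentiableOn_dslope Filter.univ_mem).2 hh.differentiableOn
  · have := sub_smul_dslope h z0 z
    rw [smul_eq_mul, h0, sub_zero] at this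
    exact this.symm

theorem circle_hit (j D r : ℝ) (hD : 0 ≤ D) (hj : D ≤ j) (h1 : j - D ≤ r) (h2 : r ≤ j + D) :
    ∃ φ : ℝ, ‖(j:ℂ) - D * Complex.exp (φ * Complex.I)‖ = r := by
  have hc : Continuous (fun φ : ℝ => ‖(j:ℂ) - D * Complex.exp (φ * Complex.I)‖) := by fun_prop
  have h3 := intermediate_value_Icc Real.pi_pos.le hc.continuousOn
  have e0 : ‖(j:ℂ) - D * Complex.exp ((0:ℝ) * Complex.I)‖ = j - D := by
    rw [Complex.ofReal_zero, zero_mul, Complex.exp_zero, mul_one, ← Complex.ofReal_sub,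
      Complex.norm_real, Real.norm_eq_abs, abs_of_nonneg (by linarith)]
  have e1 : ‖(j:ℂ) - D * Complex.exp ((Real.pi:ℝ) * Complex.I)‖ = j + D := by
    rw [Complex.exp_pi_mul_I, mul_neg, mul_one, sub_neg_eq_add, ← Complex.ofReal_add,
      Complex.norm_real, Real.norm_eq_abs, abs_of_nonneg (by linarith)]
  simp only [e0, e1] at h3
  obtain ⟨φ, -, hφ⟩ := h3 ⟨h1, h2⟩
  exact ⟨φ, hφ⟩

end H160Z
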