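import Mathlib
import Pool.Agent.MP06ac62.L3
import Pool.Agent.H160Z.Block
import Pool.Agent.H160Z.Prod

set_option linter.all false
set_option maxHeartbeats 1000000

namespace H160Z

open Metric Filter Topology

theorem term_bound (F : ℂ → ℂ) (lam ν B : ℝ) (hlam : 0 < lam) (hν : 0 < ν) (hB : 0 < B)
    (b1 : ∀ x, Bd F B lam x) (b2 : ∀ x, Bd F B (lam + ν) x) (L ε : ℝ) (hL : 0 < L)
    (γ μ : ℝ) (hγ : γ = lam / L) (hμ : μ = ν / (2 * L)) (j : ℝ) (hj : 0 < j)
    (hjl : lam / j ≤ μ / 2) (n M : ℕ) (hn1 : j / L ≤ n) (hn2 : (n:ℝ) ≤ j / L + 1)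
    (hM : (M:ℝ) ≤ (1 + ε) * Real.exp ((γ + μ) * j)) (w : ℂ) (ρ d : ℝ) (hd : 0 ≤ d)
    (hw : ‖w‖ ≤ ρ - d) :
    ‖F ((w / j) ^ n) ^ M‖ ≤ Real.exp ((1 + ε) * B * Real.exp ((γ + μ) * ρ) *
      Real.exp (-(μ / 2 * |ρ - j|) - γ * d)) := by
  have hμ0 : 0 < μ := by rw [hμ]; positivity
  have hγ0 : 0 < γ := by rw [hγ]; positivity
  obtain ⟨s, hs⟩ : ∃ s, s = ρ - d - j := ⟨_, rfl⟩
  have hζ : ‖(w / j) ^ n‖ ≤ Real.exp (n / j * s) := by
    rw [norm_pow, norm_div, Complex.norm_real, Real.norm_eq_abs, abs_of_pos hj]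
    have h1 : ‖w‖ / j ≤ Real.exp (s / j) := by
      refine le_trans ?_ (Real.add_one_le_exp _)
      rw [div_add_one hj.ne']
      exact div_le_div_of_nonneg_right (by linarith) hj.le
    have h2 := pow_le_pow_left₀ (by positivity) h1 n
    rw [← Real.exp_nat_mul] at h2
    refine h2.trans (le_of_eq ?_)
    congr 1; ring
  have hnj1 : 1 / L ≤ n / j := by
    rw [le_div_iff₀ hj]
    calc 1 / L * j = j / L := by ring
      _ ≤ n := hn1
  have hnj2 : n / j ≤ 1 / L + 1 / j := by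
    rw [div_le_iff₀ hj]
    calc (n:ℝ) ≤ j / L + 1 := hn2
      _ = (1 / L + 1 / j) * j := by field_simp
  have key : ∃ e : ℝ, ‖F ((w / j) ^ n)‖ ≤ Real.exp (B * Real.exp e) ∧
      (γ + μ) * j + e ≤ (γ + μ) * ρ + (-(μ / 2 * |ρ - j|) - γ * d) := by
    rcases le_total 0 s with h | h
    · refine ⟨_, b1 _ _ hζ, ?_⟩
      have h1 : lam * (n / j) ≤ γ + μ / 2 := by
        have h2 := mul_le_mul_of_nonneg_left hnj2 hlam.le
        have e1 : lam * (1 / L + 1 / j) = lam / L + lam / j := by ring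
        linarith
      have h3 : lam * (n / j * s) ≤ (γ + μ / 2) * s := by
        rw [← mul_assoc]; exact mul_le_mul_of_nonneg_right h1 h
      rw [abs_of_nonneg (by linarith : 0 ≤ ρ - j)]
      have h4 : 0 ≤ μ * d := by positivity
      rw [hs] at h3
      nlinarith
    · refine ⟨_, b2 _ _ hζ, ?_⟩
      have h1 : γ + 2 * μ ≤ (lam + ν) * (n / j) := by
        have h2 := mul_le_mul_of_nonneg_left hnj1 (by linarith : 0 ≤ lam + ν)
        have e1 : (lam + ν) * (1 / L) = γ + 2 * μ := by rw [hγ, hμ]; field_simp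
        linarith
      have h3 : (lam + ν) * (n / j * s) ≤ (γ + 2 * μ) * s := by
        rw [← mul_assoc]; exact mul_le_mul_of_nonpos_right h1 h
      have h4 : 0 ≤ μ * d := by positivity
      have h5 : μ * s ≤ 0 := mul_nonpos_of_nonneg_of_nonpos hμ0.le h
      rw [hs] at h3 h5
      rcases le_total 0 (ρ - j) with h6 | h6
      · rw [abs_of_nonneg h6]
        have h7 : 0 ≤ μ * (ρ - j) := by positivity
        nlinarith
      · rw [abs_of_nonpos h6]
        have h7 : μ * (ρ - j) ≤ 0 := mul_nonpos_of_nonneg_of_nonpos hμ0.le h6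
        nlinarith
  obtain ⟨e, he1, he2⟩ := key
  rw [norm_pow]
  refine (pow_le_pow_left₀ (norm_nonneg _) he1 M).trans ?_
  rw [← Real.exp_nat_mul]
  apply Real.exp_le_exp.2
  have h1 : Real.exp ((γ + μ) * j) * Real.exp e ≤
      Real.exp ((γ + μ) * ρ) * Real.exp (-(μ / 2 * |ρ - j|) - γ * d) := by
    rw [← Real.exp_add, ← Real.exp_add]
    exact Real.exp_le_exp.2 he2
  have hε : 0 ≤ 1 + ε := by
    by_contra hc
    have : (1 + ε) * Real.exp ((γ + μ) * j) < 0 :=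
      mul_neg_of_neg_of_pos (not_le.1 hc) (Real.exp_pos _)
    have : (0:ℝ) ≤ M := Nat.cast_nonneg M
    linarith
  calc M * (B * Real.exp e) ≤ (1 + ε) * Real.exp ((γ + μ) * j) * (B * Real.exp e) :=
        mul_le_mul_of_nonneg_right hM (by positivity)
    _ = (1 + ε) * B * (Real.exp ((γ + μ) * j) * Real.exp e) := by ring
    _ ≤ (1 + ε) * B * (Real.exp ((γ + μ) * ρ) * Real.exp (-(μ / 2 * |ρ - j|) - γ * d)) :=
        mul_le_mul_of_nonneg_left h1 (by positivity)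
    _ = _ := by ring

theorem phi_sum (γ μ ε : ℝ) (hγ : 0 < γ) (hμ : 0 < μ) (hε : 0 < ε) :
    ∃ α D : ℝ, 1 ≤ D ∧ ∀ (ρ : ℝ) (u : ℂ) (s : Finset ℕ),
      ∑ j ∈ s, Real.exp (-(μ / 2 * |ρ - j|) -
        γ * (D * ‖u - Complex.exp ((α * j : ℝ) * Complex.I)‖ ^ 2 / 4)) ≤ 1 + ε := by
  obtain ⟨S, hS, hsum⟩ := sum_exp_abs (μ / 4) (by positivity)
  obtain ⟨t, ht0, ht⟩ : ∃ t : ℝ, 0 < t ∧ Real.exp (-t) ≤ ε / S := by
    refine ⟨|Real.log (ε / S)| + 1, by positivity, ?_⟩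
    rw [← Real.le_log_iff_exp_le (by positivity)]
    have := neg_abs_le (Real.log (ε / S))
    linarith
  obtain ⟨W, hW⟩ : ∃ W, W = 4 * t / μ := ⟨_, rfl⟩
  have hW0 : 0 < W := by rw [hW]; positivity
  obtain ⟨α, hα⟩ : ∃ α, α = 1 / (4 * W) := ⟨_, rfl⟩
  have hα0 : 0 < α := by rw [hα]; positivity
  obtain ⟨D, hD⟩ : ∃ D, D = 64 * t / (γ * α ^ 2) + 1 := ⟨_, rfl⟩
  have hD1 : 1 ≤ D := by
    rw [hD]
    have : 0 ≤ 64 * t / (γ * α ^ 2) := by positivity
    linarith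
  refine ⟨α, D, hD1, fun ρ u s => ?_⟩
  obtain ⟨j1, hj1⟩ : ∃ j1 : ℕ, ∀ j : ℕ, j ≠ j1 → |ρ - j| < W →
      α / 4 ≤ ‖u - Complex.exp ((α * j : ℝ) * Complex.I)‖ := by
    by_cases h : ∃ j : ℕ, |ρ - j| < W ∧ ‖u - Complex.exp ((α * j : ℝ) * Complex.I)‖ < α / 4
    · obtain ⟨j1, h1, h2⟩ := h
      refine ⟨j1, fun j hj hjW => ?_⟩
      have h3 : |(j:ℝ) - j1| ≤ 2 * W := by
        have e : (j:ℝ) - j1 = (ρ - j1) - (ρ - j) := by ring
        rw [e]
        have := abs_sub (ρ - j1) (ρ - j)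
        linarith
      have h4 := sep α hα0 j j1 hj (by
        have := mul_le_mul_of_nonneg_left h3 hα0.le
        have e : α * (2 * W) = 1 / 2 := by rw [hα]; field_simp; norm_num
        linarith)
      have h5 := norm_sub_le_norm_sub_add_norm_sub (Complex.exp ((α * j : ℝ) * Complex.I)) u
        (Complex.exp ((α * j1 : ℝ) * Complex.I))
      rw [norm_sub_rev _ u] at h5
      linarith
    · push Not at h
      exact ⟨0, fun j _ hj => h j hj⟩
  have hpt : ∀ j ∈ s, Real.exp (-(μ / 2 * |ρ - j|) -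
        γ * (D * ‖u - Complex.exp ((α * j : ℝ) * Complex.I)‖ ^ 2 / 4)) ≤
      (if j = j1 then 1 else 0) + ε / S * Real.exp (-(μ / 4 * |ρ - j|)) := by
    intro j _
    have hq : 0 ≤ γ * (D * ‖u - Complex.exp ((α * j : ℝ) * Complex.I)‖ ^ 2 / 4) := by positivity
    have ha : 0 ≤ μ * |ρ - j| := by positivity
    by_cases hj : j = j1
    · rw [if_pos hj]
      have h1 : Real.exp (-(μ / 2 * |ρ - j|) -
          γ * (D * ‖u - Complex.exp ((α * j : ℝ) * Complex.I)‖ ^ 2 / 4)) ≤ 1 :=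
        Real.exp_le_one_iff.2 (by linarith)
      have h2 : 0 ≤ ε / S * Real.exp (-(μ / 4 * |ρ - j|)) := by positivity
      linarith
    · rw [if_neg hj, zero_add]
      refine le_trans ?_ (mul_le_mul_of_nonneg_right ht (Real.exp_pos _).le)
      rw [← Real.exp_add]
      apply Real.exp_le_exp.2
      by_cases hW1 : |ρ - j| < W
      · have h1 := hj1 j hj hW1
        have h2 : (α / 4) ^ 2 ≤ ‖u - Complex.exp ((α * j : ℝ) * Complex.I)‖ ^ 2 :=
          pow_le_pow_left₀ (by positivity) h1 2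
        have h3 : γ * (D * (α / 4) ^ 2 / 4) ≤
            γ * (D * ‖u - Complex.exp ((α * j : ℝ) * Complex.I)‖ ^ 2 / 4) := by
          apply mul_le_mul_of_nonneg_left _ hγ.le
          have := mul_le_mul_of_nonneg_left h2 (by linarith : 0 ≤ D)
          linarith
        have h4 : γ * (D * (α / 4) ^ 2 / 4) = t + γ * α ^ 2 / 64 := by
          rw [hD]; field_simp; ring
        have h5 : 0 ≤ γ * α ^ 2 / 64 := by positivity
        linarith
      · have h1 := mul_le_mul_of_nonneg_left (not_lt.1 hW1) hμ.le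
        have h2 : μ * W = 4 * t := by rw [hW]; field_simp
        linarith
  refine (Finset.sum_le_sum hpt).trans ?_
  rw [Finset.sum_add_distrib, ← Finset.mul_sum]
  have h1 : ∑ j ∈ s, (if j = j1 then (1:ℝ) else 0) ≤ 1 := by
    rw [Finset.sum_ite_eq']
    split_ifs <;> norm_num
  have h2 := mul_le_mul_of_nonneg_left (hsum ρ s) (by positivity : 0 ≤ ε / S)
  rw [div_mul_cancel₀ _ hS.ne'] at h2
  linarith

theorem construct (ε : ℝ) (hε : 0 < ε) (hε1 : ε ≤ 1) :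
    ∃ f : ℂ → ℂ, Differentiable ℂ f ∧ f 0 ≠ 0 ∧ ∃ β A C0 r0 : ℝ, 0 < β ∧ 0 < A ∧ 0 < C0 ∧ 1 ≤ r0 ∧
      (∀ z : ℂ, r0 ≤ ‖z‖ → ‖f z‖ ≤ Real.exp (A * Real.exp (β * ‖z‖))) ∧
      ∀ r, r0 ≤ r → ∃ z0 : ℂ, |‖z0‖ - r| ≤ C0 / r ∧ ∃ m : ℕ,
        (2 - ε) * (A * Real.exp (β * r)) ≤ (1 + ε) ^ 3 * m ∧
        ∃ g : ℂ → ℂ, Differentiable ℂ g ∧ ∀ z, f z = (z - z0) ^ m * g z := by
  obtain ⟨F, hF, hF0, lam, ν, B, hlam, hν, hB, b1, b2, m, hm, g, hg, hFg⟩ := block ε hε hε1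
  have hle : 0 < Real.log (1 + ε) := Real.log_pos (by linarith)
  obtain ⟨L, hL⟩ : ∃ L : ℝ, L = (lam + ν / 2) / Real.log (1 + ε) + 1 := ⟨_, rfl⟩
  have hL1 : 1 ≤ L := by
    rw [hL]
    have : 0 ≤ (lam + ν / 2) / Real.log (1 + ε) := by positivity
    linarith
  have hL0 : 0 < L := by linarith
  obtain ⟨γ, hγ⟩ : ∃ γ, γ = lam / L := ⟨_, rfl⟩
  obtain ⟨μ, hμ⟩ : ∃ μ, μ = ν / (2 * L) := ⟨_, rfl⟩
  have hμ0 : 0 < μ := by rw [hμ]; positivity
  have hγ0 : 0 < γ := by rw [hγ]; positivity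
  have hβ : Real.exp (γ + μ) ≤ 1 + ε := by
    rw [← Real.le_log_iff_exp_le (by linarith)]
    have e : γ + μ = (lam + ν / 2) / L := by rw [hγ, hμ]; field_simp
    rw [e, div_le_iff₀ hL0, hL, mul_add, mul_div_cancel₀ _ hle.ne']
    linarith
  obtain ⟨α, D, hD, hphi⟩ := phi_sum γ μ ε hγ0 hμ0 hε
  obtain ⟨F1, hF1, -, hFF1⟩ := ent_slope F hF
  obtain ⟨C1, hC1⟩ := (isCompact_closedBall (0:ℂ) 1).exists_bound_of_continuousOn
    hF1.continuous.continuousOn
  have hC10 : 0 ≤ C1 := (norm_nonneg _).trans (hC1 0 (mem_closedBall_self zero_le_one))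
  have hFs : ∀ ζ : ℂ, ‖ζ‖ ≤ 1 → ‖F ζ - 1‖ ≤ C1 * ‖ζ‖ := by
    intro ζ hζ
    rw [hFF1 ζ, hF0, add_sub_cancel_left, norm_mul, mul_comm]
    exact mul_le_mul_of_nonneg_right (hC1 ζ (mem_closedBall_zero_iff.2 hζ)) (norm_nonneg _)
  obtain ⟨j0, hj0⟩ : ∃ j0 : ℕ, ∀ j : ℕ, j0 ≤ j → 2 * lam / μ ≤ j ∧
      1 ≤ ε * Real.exp ((γ + μ) * j) ∧ (C1 + 1) * D ≤ j := by
    have h1 : Tendsto (fun j : ℕ => ε * Real.exp ((γ + μ) * j)) atTop atTop :=
      (Real.tendsto_exp_atTop.comp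
        (tendsto_natCast_atTop_atTop.const_mul_atTop (by positivity))).const_mul_atTop hε
    exact eventually_atTop.1 ((tendsto_natCast_atTop_atTop.eventually_ge_atTop _).and
      ((h1.eventually_ge_atTop 1).and (tendsto_natCast_atTop_atTop.eventually_ge_atTop _)))
  obtain ⟨v, hv⟩ : ∃ v : ℕ → ℂ, v = fun j : ℕ => Complex.exp ((α * j : ℝ) * Complex.I) := ⟨_, rfl⟩
  have hv1 : ∀ j, ‖v j‖ = 1 := by
    intro j; rw [hv]; exact Complex.norm_exp_ofReal_mul_I _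
  obtain ⟨n, hn⟩ : ∃ n : ℕ → ℕ, n = fun j : ℕ => ⌈(j:ℝ) / L⌉₊ := ⟨_, rfl⟩
  obtain ⟨M, hM⟩ : ∃ M : ℕ → ℕ, M = fun j : ℕ => ⌈Real.exp ((γ + μ) * j)⌉₊ := ⟨_, rfl⟩
  have hn1 : ∀ j : ℕ, (j:ℝ) / L ≤ n j := by intro j; rw [hn]; exact Nat.le_ceil _
  have hn2 : ∀ j : ℕ, (n j : ℝ) ≤ j / L + 1 := by
    intro j; rw [hn]; exact (Nat.ceil_lt_add_one (by positivity)).le
  have hM1 : ∀ j : ℕ, Real.exp ((γ + μ) * j) ≤ M j := by intro j; rw [hM]; exact Nat.le_ceil _
  have hM2 : ∀ j : ℕ, j0 ≤ j → (M j : ℝ) ≤ (1 + ε) * Real.exp ((γ + μ) * j) := by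
    intro j hj
    have h1 : (M j : ℝ) ≤ Real.exp ((γ + μ) * j) + 1 := by
      rw [hM]; exact (Nat.ceil_lt_add_one (by positivity)).le
    have h2 := (hj0 j hj).2.1
    linarith
  have hjD : ∀ j : ℕ, j0 ≤ j → D ≤ j := by
    intro j hj
    have h2 := (hj0 j hj).2.2
    nlinarith
  have hnpos : ∀ j : ℕ, j0 ≤ j → 0 < n j := by
    intro j hj
    have h1 := hn1 j
    have h2 := hjD j hj
    have h3 : 0 < (j:ℝ) / L := div_pos (by linarith) hL0
    exact_mod_cast h3.trans_le h1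
  obtain ⟨G, hG⟩ : ∃ G : ℕ → ℂ → ℂ, G = fun (j : ℕ) (z : ℂ) =>
    if j0 ≤ j then F (((z + D * v j) / ((j:ℝ):ℂ)) ^ n j) ^ M j else 1 := ⟨_, rfl⟩
  have hG1 : ∀ j, j0 ≤ j → ∀ z, G j z = F (((z + D * v j) / ((j:ℝ):ℂ)) ^ n j) ^ M j := by
    intro j hj z; rw [hG]; exact if_pos hj
  have hG2 : ∀ j, ¬ j0 ≤ j → ∀ z, G j z = 1 := by
    intro j hj z; rw [hG]; exact if_neg hj
  have hwd : ∀ j : ℕ, Differentiable ℂ (fun z : ℂ => ((z + D * v j) / ((j:ℝ):ℂ)) ^ n j) :=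
    fun j => ((differentiable_id.add_const _).div_const _).pow _
  have hGd : ∀ j, Differentiable ℂ (G j) := by
    intro j
    by_cases hj : j0 ≤ j
    · rw [funext (hG1 j hj)]
      exact (hF.comp (hwd j)).pow _
    · rw [funext (hG2 j hj)]
      exact differentiable_const _
  have hGs : ∀ R : ℝ, ∃ u : ℕ → ℝ, Summable u ∧
      ∀ᶠ j in atTop, ∀ z ∈ ball (0:ℂ) R, ‖G j z - 1‖ ≤ u j := by
    intro R
    have h0 : Summable (fun j : ℕ => Real.exp (j * (-1:ℝ))) :=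
      Real.summable_exp_nat_mul_iff.2 (by norm_num)
    refine ⟨fun j => 2 * (2 * C1 * Real.exp (j * (-1:ℝ))), (h0.mul_left _).mul_left _, ?_⟩
    have h1 : ∀ᶠ j : ℕ in atTop, 2 * C1 * Real.exp (j * (-1:ℝ)) < 1 := by
      have := (h0.mul_left (2 * C1)).tendsto_atTop_zero
      exact this.eventually (gt_mem_nhds one_pos)
    filter_upwards [h1, eventually_ge_atTop j0, tendsto_natCast_atTop_atTop.eventually_ge_atTop
      ((R + D) * Real.exp (L * (γ + μ + 1)))] with j hj1 hj hj2 z hz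
    have hjp : (0:ℝ) < j := by linarith [hjD j hj]
    rw [hG1 j hj]
    apply pow_sub_one_le _ _ _ _ hj1.le
    have h2 : ‖(z + D * v j) / ((j:ℝ):ℂ)‖ ≤ Real.exp (-(L * (γ + μ + 1))) := by
      rw [norm_div, Complex.norm_real, Real.norm_eq_abs, abs_of_pos hjp, div_le_iff₀ hjp]
      have h3 : ‖z + D * v j‖ ≤ R + D := by
        have h4 := norm_add_le z (D * v j)
        rw [norm_mul, hv1, Complex.norm_real, Real.norm_eq_abs, abs_of_nonneg (by linarith)] at h4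
        have h5 := mem_ball_zero_iff.1 hz
        linarith
      have h6 := mul_le_mul_of_nonneg_left hj2 (Real.exp_pos (-(L * (γ + μ + 1)))).le
      rw [mul_left_comm, ← Real.exp_add, neg_add_cancel, Real.exp_zero, mul_one] at h6
      linarith
    have h3 : ‖((z + D * v j) / ((j:ℝ):ℂ)) ^ n j‖ ≤ Real.exp (-((γ + μ + 1) * j)) := by
      rw [norm_pow]
      refine (pow_le_pow_left₀ (norm_nonneg _) h2 _).trans ?_
      rw [← Real.exp_nat_mul]
      apply Real.exp_le_exp.2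
      have h4 := hn1 j
      rw [div_le_iff₀ hL0] at h4
      have h5 := mul_le_mul_of_nonneg_left h4 (by linarith : 0 ≤ γ + μ + 1)
      linarith
    have h4 : Real.exp (-((γ + μ + 1) * j)) ≤ 1 :=
      Real.exp_le_one_iff.2 (by nlinarith)
    have h5 := (hFs _ (h3.trans h4)).trans (mul_le_mul_of_nonneg_left h3 hC10)
    have h6 : (M j : ℝ) ≤ 2 * Real.exp ((γ + μ) * j) := by
      have := hM2 j hj
      have := Real.exp_pos ((γ + μ) * j)
      nlinarith
    refine (mul_le_mul h6 h5 (norm_nonneg _) (by positivity)).trans (le_of_eq ?_)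
    have e : Real.exp (j * (-1:ℝ)) = Real.exp ((γ + μ) * j) * Real.exp (-((γ + μ + 1) * j)) := by
      rw [← Real.exp_add]; congr 1; ring
    rw [e]; ring
  obtain ⟨hfd, hfm, hfne⟩ := prod_ent G hGd hGs
  have hpi := Real.pi_pos
  refine ⟨fun z => ∏' j, G j z, hfd, hfne 0 ?_, γ + μ,
    (1 + ε) ^ 2 * B * Real.exp ((γ + μ) * D), D * Real.pi * L, D + j0, by positivity,
    by positivity, by positivity, by linarith [(Nat.cast_nonneg j0 : (0:ℝ) ≤ j0)], ?_, ?_⟩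
  · intro j
    by_cases hj : j0 ≤ j
    · rw [hG1 j hj]
      apply pow_ne_zero
      have hjD' := hjD j hj
      have hjp : (0:ℝ) < j := by linarith
      have h1 : ‖(0 + D * v j) / ((j:ℝ):ℂ)‖ = D / j := by
        rw [zero_add, norm_div, norm_mul, hv1, Complex.norm_real, Complex.norm_real,
          Real.norm_eq_abs, Real.norm_eq_abs, abs_of_pos hjp, abs_of_nonneg (by linarith), mul_one]
      have h2 : D / j ≤ 1 := (div_le_one hjp).2 hjD'
      have h3 : ‖((0 + D * v j) / ((j:ℝ):ℂ)) ^ n j‖ ≤ D / j := by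
        rw [norm_pow, h1]
        exact pow_le_of_le_one (by positivity) h2 (hnpos j hj).ne'
      have h4 := (hFs _ (h3.trans h2)).trans (mul_le_mul_of_nonneg_left h3 hC10)
      have h5 : C1 * (D / j) < 1 := by
        rw [← mul_div_assoc, div_lt_one hjp]
        have := (hj0 j hj).2.2
        linarith
      intro h0
      rw [h0, zero_sub, norm_neg, norm_one] at h4
      linarith
    · rw [hG2 j hj]; exact one_ne_zero
  · intro z hz
    have hj00 : (0:ℝ) ≤ j0 := Nat.cast_nonneg j0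
    have hzp : 0 < ‖z‖ := by linarith
    obtain ⟨u, hu⟩ : ∃ u : ℂ, u = z / (‖z‖ : ℝ) := ⟨_, rfl⟩
    have hu1 : ‖u‖ = 1 := by
      rw [hu, norm_div, Complex.norm_real, Real.norm_eq_abs, abs_of_pos hzp, div_self hzp.ne']
    have hzu : z = (‖z‖ : ℝ) * u := by
      rw [hu, mul_div_cancel₀]
      exact_mod_cast hzp.ne'
    have hb := prod_bound (fun j => G j z) (hfm z)
      (fun j => (1 + ε) * B * Real.exp ((γ + μ) * (‖z‖ + D)) *
        Real.exp (-(μ / 2 * |(‖z‖ + D) - j|) - γ * (D * ‖u - v j‖ ^ 2 / 4)))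
      ((1 + ε) * B * Real.exp ((γ + μ) * (‖z‖ + D)) * (1 + ε)) (by
        intro j
        by_cases hj : j0 ≤ j
        · rw [hG1 j hj]
          have hjp : (0:ℝ) < j := by linarith [hjD j hj]
          refine term_bound F lam ν B hlam hν hB b1 b2 L ε hL0 γ μ hγ hμ j hjp ?_ _ _ (hn1 j)
            (hn2 j) (hM2 j hj) _ _ _ (by positivity) ?_
          · have h1 := (hj0 j hj).1
            rw [div_le_iff₀ hμ0] at h1
            rw [div_le_iff₀ hjp]
            linarith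
          · have h1 := defect ‖z‖ D (by linarith) (by linarith) u (v j) hu1 (hv1 j)
            rwa [← hzu] at h1
        · rw [hG2 j hj, norm_one]
          exact Real.one_le_exp (by positivity)) (by
        intro s
        rw [← Finset.mul_sum]
        apply mul_le_mul_of_nonneg_left _ (by positivity)
        rw [hv]
        exact hphi _ u s)
    refine hb.trans (le_of_eq ?_)
    congr 1
    rw [mul_add (γ + μ), Real.exp_add]
    ring
  · intro r hr
    have hj00 : (0:ℝ) ≤ j0 := Nat.cast_nonneg j0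
    have hrp : 0 < r := by linarith
    obtain ⟨j, hj1, hj2⟩ : ∃ j : ℕ, (j:ℝ) ≤ r + D ∧ r + D < j + 1 :=
      ⟨⌊r + D⌋₊, Nat.floor_le (by linarith), Nat.lt_floor_add_one _⟩
    have hj : j0 ≤ j := by
      have : (j0:ℝ) ≤ j := by linarith
      exact_mod_cast this
    have hjD' := hjD j hj
    have hjp : (0:ℝ) < j := by linarith
    have hjr : r ≤ j := by linarith
    obtain ⟨φ, hφ⟩ := circle_hit j D r (by linarith) hjD' (by linarith) (by linarith)
    obtain ⟨k, -, θ, hθ, hexp⟩ := MinMod.L3.j19559_arc (n j) (hnpos j hj) (α * j) φ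
    obtain ⟨ω, hω⟩ : ∃ ω : ℂ, ω = Complex.exp (2 * Real.pi * Complex.I * k / (n j)) := ⟨_, rfl⟩
    rw [← hω] at hexp
    have hnj : ((n j : ℕ) : ℂ) ≠ 0 := by exact_mod_cast (hnpos j hj).ne'
    have hωn : ω ^ n j = 1 := by
      rw [hω, ← Complex.exp_nat_mul, mul_div_cancel₀ _ hnj, mul_comm]
      exact Complex.exp_nat_mul_two_pi_mul_I k
    have hω1 : ‖ω‖ = 1 := by
      have := congrArg norm hωn
      rw [norm_pow, norm_one] at this
      exact (pow_eq_one_iff_of_nonneg (norm_nonneg _) (hnpos j hj).ne').1 this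
    have hω0 : ω ≠ 0 := by
      intro h; rw [h, norm_zero] at hω1; exact zero_ne_one hω1
    obtain ⟨z0, hz0⟩ : ∃ z0 : ℂ, z0 = ((j:ℝ):ℂ) * ω⁻¹ - D * v j := ⟨_, rfl⟩
    have hjc : ((j:ℝ):ℂ) ≠ 0 := by exact_mod_cast hjp.ne'
    obtain ⟨h1, hh1, hfac⟩ := ent_zero (fun z : ℂ => ((z + D * v j) / ((j:ℝ):ℂ)) ^ n j - 1)
      ((hwd j).sub_const 1) z0 (by
        rw [hz0, sub_add_cancel, mul_div_cancel_left₀ _ hjc, inv_pow, hωn, inv_one, sub_self])
    obtain ⟨h2, hh2, hfac2⟩ := prod_factor G hGd hGs j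
    refine ⟨z0, ?_, m * M j, ?_,
      fun z => (h1 z ^ m * g (((z + D * v j) / ((j:ℝ):ℂ)) ^ n j)) ^ M j * h2 z,
      (((hh1.pow m).mul (hg.comp (hwd j))).pow _).mul hh2, fun z => ?_⟩
    · have e1 : ‖z0‖ = ‖((j:ℝ):ℂ) - D * Complex.exp (θ * Complex.I)‖ := by
        have e2 : ((j:ℝ):ℂ) - D * Complex.exp (θ * Complex.I) = z0 * ω := by
          rw [← hexp, hz0, hv, sub_mul, mul_assoc, inv_mul_cancel₀ hω0, mul_one, mul_assoc]
        rw [e2, norm_mul, hω1, mul_one]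
      rw [e1, ← hφ]
      refine (abs_norm_sub_norm_le _ _).trans ?_
      have e3 : ((j:ℝ):ℂ) - D * Complex.exp (θ * Complex.I) -
          (((j:ℝ):ℂ) - D * Complex.exp (φ * Complex.I)) =
          -(D * Complex.exp (φ * Complex.I)) * (Complex.exp (Complex.I * ((θ - φ : ℝ) : ℂ)) - 1) := by
        have e4 : Complex.exp (θ * Complex.I) =
            Complex.exp (φ * Complex.I) * Complex.exp (Complex.I * ((θ - φ : ℝ) : ℂ)) := by
          rw [← Complex.exp_add]; congr 1; push_cast; ring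
        rw [e4]; ring
      rw [e3, norm_mul, norm_neg, norm_mul, Complex.norm_exp_ofReal_mul_I, Complex.norm_real,
        Real.norm_eq_abs, abs_of_nonneg (by linarith), mul_one, hφ]
      have h6 : ‖Complex.exp (Complex.I * ((θ - φ : ℝ) : ℂ)) - 1‖ ≤ ‖θ - φ‖ :=
        Real.norm_exp_I_mul_ofReal_sub_one_le
      rw [Real.norm_eq_abs] at h6
      have h7 : Real.pi / (n j) ≤ Real.pi * L / r := by
        have h8 := hn1 j
        have h9 : (0:ℝ) < n j := by exact_mod_cast hnpos j hj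
        rw [div_le_iff₀ hL0] at h8
        rw [div_le_div_iff₀ h9 hrp, mul_assoc]
        apply mul_le_mul_of_nonneg_left _ hpi.le
        linarith
      calc D * ‖Complex.exp (Complex.I * ((θ - φ : ℝ) : ℂ)) - 1‖ ≤ D * (Real.pi * L / r) :=
            mul_le_mul_of_nonneg_left (h6.trans (hθ.trans h7)) (by linarith)
        _ = D * Real.pi * L / r := by ring
    · have h3 : Real.exp ((γ + μ) * D) * Real.exp ((γ + μ) * r) ≤
          Real.exp (γ + μ) * Real.exp ((γ + μ) * j) := by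
        rw [← Real.exp_add, ← Real.exp_add]
        exact Real.exp_le_exp.2 (by nlinarith)
      have h4 : Real.exp (γ + μ) * Real.exp ((γ + μ) * j) ≤ (1 + ε) * M j :=
        mul_le_mul hβ (hM1 j) (Real.exp_pos _).le (by linarith)
      have h5 : (2 - ε) * B * (Real.exp ((γ + μ) * D) * Real.exp ((γ + μ) * r)) ≤
          m * ((1 + ε) * M j) :=
        mul_le_mul hm (h3.trans h4) (by positivity) (Nat.cast_nonneg m)
      have h6 := mul_le_mul_of_nonneg_left h5 (by positivity : 0 ≤ (1 + ε) ^ 2)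
      push_cast
      calc _ = (1 + ε) ^ 2 * ((2 - ε) * B * (Real.exp ((γ + μ) * D) * Real.exp ((γ + μ) * r))) := by
            ring
        _ ≤ _ := h6
        _ = _ := by ring
    · simp only
      rw [hfac2 z, hG1 j hj, hFg]
      have h3 := hfac z
      rw [h3, mul_pow, mul_pow, mul_pow, pow_mul]
      ring

end H160Z
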