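import Mathlib
import Pool.Agent.MP06ac62.Defs
import Pool.Agent.MP06ac62.G
import Pool.Agent.MP06ac62.U7
import Pool.Agent.H160Z.Lower
import Pool.Agent.H160Z.Upper

set_option linter.all false
set_option maxHeartbeats 1000000

namespace H160Z

open MinMod
open Metric Filter Topology

theorem upper_inf (ε : ℝ) (hε : 0 < ε) (hε1 : ε ≤ 1 / 10) :
    ∃ f : ℂ → ℂ, Differentiable ℂ f ∧
      limsup (fun r : ℝ => ((Real.log (aF f r) / Real.log r : ℝ) : EReal)) atTop = ⊤ ∧
      ∀ᶠ r : ℝ in atTop, ∃ z : ℂ, ‖z‖ = r ∧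
        ‖f z‖ ≤ Real.exp (-((2 - 16 * ε) * (aF f r * Real.log (Real.log (aF f r))))) := by
  obtain ⟨f, hf, hf0, β, A, C0, r0, hβ, hA, hC0, hr0, hup, hz⟩ := construct ε hε (by linarith)
  have hf0p : 0 < ‖f 0‖ := norm_pos_iff.2 hf0
  have hcube : (2 - 15 * ε) * (1 + ε) ^ 3 ≤ 2 - ε := by
    have h7 : ε ^ 2 ≤ ε := by nlinarith
    have h8 : ε ^ 3 ≤ ε := by nlinarith
    have h9 : (1 + ε) ^ 3 ≤ 1 + 7 * ε := by nlinarith
    have h10 := mul_le_mul_of_nonneg_left h9 (by linarith : 0 ≤ 2 - 15 * ε)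
    nlinarith
  have hz' : ∀ r, r0 ≤ r → ∃ z0 : ℂ, |‖z0‖ - r| ≤ C0 / r ∧ ∃ m : ℕ,
        (2 - 15 * ε) * (A * Real.exp (β * r)) ≤ m ∧
        ∃ g : ℂ → ℂ, Differentiable ℂ g ∧ ∀ z, f z = (z - z0) ^ m * g z := by
    intro r hr
    obtain ⟨z0, h1, m, hm, h2⟩ := hz r hr
    refine ⟨z0, h1, m, ?_, h2⟩
    have h3 := mul_le_mul_of_nonneg_right hcube (by positivity : 0 ≤ A * Real.exp (β * r))
    have h4 : (1 + ε) ^ 3 * ((2 - 15 * ε) * (A * Real.exp (β * r))) ≤ (1 + ε) ^ 3 * m := by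
      linarith
    exact le_of_mul_le_mul_left h4 (by positivity)
  have hlow : ∀ᶠ r : ℝ in atTop, Real.exp (β * r / 4) ≤ aF f r := by
    have hl : 0 < Real.log (3 / 2) := Real.log_pos (by norm_num)
    obtain ⟨c, hc⟩ : ∃ c, c = A / 2 * Real.log (3 / 2) := ⟨_, rfl⟩
    have hc0 : 0 < c := by rw [hc]; positivity
    have h1 : Tendsto (fun r : ℝ => Real.exp (β * r / 4)) atTop atTop :=
      Real.tendsto_exp_atTop.comp ((tendsto_id.const_mul_atTop hβ).atTop_div_const (by norm_num))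
    filter_upwards [h1.eventually_ge_atTop ((1 + |Real.log ‖f 0‖|) / c), h1.eventually_ge_atTop 1,
      eventually_ge_atTop (2 * r0), eventually_ge_atTop (2 * C0), eventually_ge_atTop 6]
      with r e1 e2 e3 e4 e5
    obtain ⟨z0, hz1, m, hm, g, hg, hfg⟩ := hz' (r / 2) (by linarith)
    have h2 : C0 / (r / 2) ≤ 1 := (div_le_one (by linarith)).2 (by linarith)
    have h3 := abs_le.1 (hz1.trans h2)
    have hρ : 0 < ‖z0‖ := by linarith
    have hz0 : z0 ≠ 0 := norm_pos_iff.1 hρ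
    have h4 := MinMod.U7.un_jensen hf hg hz0 hfg (by linarith : 0 < r)
    have h5 : 3 / 2 ≤ r / ‖z0‖ := by
      rw [le_div_iff₀ hρ]; linarith
    have h6 : ‖f 0‖ * (3 / 2) ^ m ≤ maxMod f r := by
      refine le_trans ?_ h4
      apply mul_le_mul_of_nonneg_left _ hf0p.le
      exact pow_le_pow_left₀ (by norm_num) h5 m
    have h7 : Real.log (‖f 0‖ * (3 / 2) ^ m) ≤ aF f r := Real.log_le_log (by positivity) h6
    rw [Real.log_mul hf0p.ne' (by positivity), Real.log_pow] at h7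
    obtain ⟨X, hX⟩ : ∃ X, X = Real.exp (β * r / 4) := ⟨_, rfl⟩
    have hXX : Real.exp (β * (r / 2)) = X * X := by
      rw [hX, ← Real.exp_add]; congr 1; ring
    rw [← hX] at e1 e2 ⊢
    rw [hXX] at hm
    rw [div_le_iff₀ hc0] at e1
    have h8 : A / 2 * (X * X) ≤ m := by
      have : 0 ≤ A * (X * X) := by positivity
      nlinarith
    have h9 := mul_le_mul_of_nonneg_right h8 hl.le
    have h10 : c * (X * X) ≤ m * Real.log (3 / 2) := by rw [hc]; linarith
    have h11 := mul_le_mul_of_nonneg_right e1 (by linarith : 0 ≤ X)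
    have h12 := neg_abs_le (Real.log ‖f 0‖)
    have h13 := mul_le_mul_of_nonneg_left e2 (abs_nonneg (Real.log ‖f 0‖))
    nlinarith
  have hord : limsup (fun r : ℝ => ((Real.log (aF f r) / Real.log r : ℝ) : EReal)) atTop = ⊤ := by
    apply Tendsto.limsup_eq
    rw [EReal.tendsto_coe_nhds_top_iff]
    have h1 : Tendsto (fun r : ℝ => (β / 4) * (r / Real.log r)) atTop atTop := by
      apply Tendsto.const_mul_atTop (by positivity)
      have h2 : Tendsto (fun x : ℝ => Real.exp x / x ^ 1) atTop atTop :=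
        Real.tendsto_exp_div_pow_atTop 1
      refine (h2.comp Real.tendsto_log_atTop).congr' ?_
      filter_upwards [eventually_gt_atTop (0:ℝ)] with r hr
      simp [Real.exp_log hr]
    refine tendsto_atTop_mono' _ ?_ h1
    filter_upwards [hlow, eventually_gt_atTop (1:ℝ)] with r hr hr1
    have h3 : β * r / 4 ≤ Real.log (aF f r) :=
      (Real.le_log_iff_exp_le ((Real.exp_pos _).trans_le hr)).2 hr
    rw [← mul_div_assoc]
    exact div_le_div_of_nonneg_right (by linarith) (Real.log_pos hr1).le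
  refine ⟨f, hf, hord, ?_⟩
  obtain ⟨c, hc⟩ : ∃ c, c = Real.log (|Real.log A| + β) := ⟨_, rfl⟩
  filter_upwards [hlow, eventually_ge_atTop (r0 + 2), eventually_ge_atTop (2 * C0),
    eventually_ge_atTop (4 / β), Real.tendsto_log_atTop.eventually_ge_atTop
      ((2 * |c| + 2 * |Real.log C0| + Real.exp (2 * β)) / ε)] with r e1 e2 e3 e4 e5
  have hr : 0 < r := by linarith
  obtain ⟨z0, hz1, m, hm, g, hg, hfg⟩ := hz' r (by linarith)
  have h2 : C0 / r ≤ 1 / 2 := by
    rw [div_le_iff₀ hr]; linarith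
  have h3 := abs_le.1 (hz1.trans h2)
  have hρ : 0 < ‖z0‖ := by linarith
  obtain ⟨z1, hz1d⟩ : ∃ z1 : ℂ, z1 = ((r / ‖z0‖ : ℝ) : ℂ) * z0 := ⟨_, rfl⟩
  have hz1n : ‖z1‖ = r := by
    rw [hz1d, norm_mul, Complex.norm_real, Real.norm_eq_abs, abs_of_pos (by positivity),
      div_mul_cancel₀ _ hρ.ne']
  have hz10 : ‖z1 - z0‖ ≤ C0 / r := by
    have e : z1 - z0 = (((r - ‖z0‖) / ‖z0‖ : ℝ) : ℂ) * z0 := by
      rw [hz1d, sub_div, div_self hρ.ne']
      push_cast; ring
    rw [e, norm_mul, Complex.norm_real, Real.norm_eq_abs, abs_div, abs_of_pos hρ,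
      div_mul_cancel₀ _ hρ.ne', abs_sub_comm]
    exact hz1
  obtain ⟨U, hU⟩ : ∃ U, U = A * Real.exp (β * r) := ⟨_, rfl⟩
  have hU0 : 0 < U := by rw [hU]; positivity
  rw [← hU] at hm
  have hg1 : ‖g z1‖ ≤ Real.exp (Real.exp (2 * β) * U) := by
    refine Complex.norm_le_of_forall_mem_frontier_norm_le (U := ball z0 1)
      isBounded_ball hg.diffContOnCl ?_ ?_
    · intro w hw
      rw [frontier_ball z0 one_ne_zero, mem_sphere_iff_norm] at hw
      have h4 : ‖g w‖ = ‖f w‖ := by rw [hfg w, norm_mul, norm_pow, hw, one_pow, one_mul]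
      have h5 := abs_le.1 ((abs_norm_sub_norm_le w z0).trans hw.le)
      rw [h4]
      refine (hup w (by linarith)).trans (Real.exp_le_exp.2 ?_)
      rw [hU, mul_left_comm, ← Real.exp_add]
      apply mul_le_mul_of_nonneg_left _ hA.le
      exact Real.exp_le_exp.2 (by nlinarith)
    · rw [closure_ball z0 one_ne_zero, mem_closedBall_iff_norm]
      linarith
  refine ⟨z1, hz1n, ?_⟩
  have hpow : ‖z1 - z0‖ ^ m ≤ Real.exp (-(m * (Real.log r - Real.log C0))) := by
    refine (pow_le_pow_left₀ (norm_nonneg _) hz10 m).trans (le_of_eq ?_)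
    rw [← Real.exp_log (by positivity : 0 < C0 / r), ← Real.exp_nat_mul,
      Real.log_div hC0.ne' hr.ne']
    congr 1; ring
  rw [hfg z1, norm_mul, norm_pow]
  refine (mul_le_mul hpow hg1 (norm_nonneg _) (Real.exp_pos _).le).trans ?_
  rw [← Real.exp_add]
  apply Real.exp_le_exp.2
  have hβr : 1 ≤ β * r / 4 := by
    rw [div_le_iff₀ hβ] at e4
    linarith
  have ha1 : 1 ≤ Real.log (aF f r) :=
    hβr.trans ((Real.le_log_iff_exp_le ((Real.exp_pos _).trans_le e1)).2 e1)
  have ha0 : 0 < aF f r := (Real.exp_pos _).trans_le e1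
  have haU : aF f r ≤ U := by
    have h4 : maxMod f r ≤ Real.exp U := by
      refine MinMod.U7.un_maxMod_le hr.le fun z hz => ?_
      have := hup z (by rw [hz]; linarith)
      rwa [hz, ← hU] at this
    by_cases hp : 0 < maxMod f r
    · exact (Real.log_le_iff_le_exp hp).2 h4
    · have h5 : 0 ≤ maxMod f r :=
        le_trans (norm_nonneg _) (MinMod.U7.un_le_maxMod hf.continuous hz1n)
      have h6 : maxMod f r = 0 := le_antisymm (not_lt.1 hp) h5
      unfold aF
      rw [h6, Real.log_zero]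
      exact hU0.le
  have hll0 : 0 ≤ Real.log (Real.log (aF f r)) := Real.log_nonneg ha1
  have hll : Real.log (Real.log (aF f r)) ≤ Real.log r + |c| := by
    have h4 : Real.log (aF f r) ≤ (|Real.log A| + β) * r := by
      have h5 := Real.log_le_log ha0 haU
      rw [hU, Real.log_mul hA.ne' (Real.exp_pos _).ne', Real.log_exp] at h5
      have h6 := le_abs_self (Real.log A)
      have h7 := mul_le_mul_of_nonneg_left (by linarith : 1 ≤ r) (abs_nonneg (Real.log A))
      linarith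
    have h8 := Real.log_le_log (by linarith) h4
    rw [Real.log_mul (by positivity) hr.ne', ← hc] at h8
    have := le_abs_self c
    linarith
  have h9 : aF f r * Real.log (Real.log (aF f r)) ≤ U * (Real.log r + |c|) :=
    mul_le_mul haU hll hll0 hU0.le
  have h10 := mul_le_mul_of_nonneg_left h9 (by linarith : 0 ≤ 2 - 16 * ε)
  have hlr : 0 ≤ Real.log r - Real.log C0 := by
    have := Real.log_le_log hC0 (by linarith : C0 ≤ r)
    linarith
  have h11 := mul_le_mul_of_nonneg_right hm hlr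
  rw [div_le_iff₀ hε] at e5
  have h12 : (2 - 16 * ε) * (Real.log r + |c|) + Real.exp (2 * β) ≤
      (2 - 15 * ε) * (Real.log r - Real.log C0) := by
    have k1 : (2 - 16 * ε) * |c| ≤ 2 * |c| :=
      mul_le_mul_of_nonneg_right (by linarith) (abs_nonneg c)
    have k2 : (2 - 15 * ε) * Real.log C0 ≤ 2 * |Real.log C0| :=
      (mul_le_mul_of_nonneg_left (le_abs_self _) (by linarith)).trans
        (mul_le_mul_of_nonneg_right (by linarith) (abs_nonneg _))
    linarith
  have h13 := mul_le_mul_of_nonneg_left h12 hU0.le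
  linarith

theorem ll_pos (f : ℂ → ℂ) (hf : Differentiable ℂ f)
    (hlim : limsup (fun r : ℝ => ((Real.log (aF f r) / Real.log r : ℝ) : EReal)) atTop = ⊤) :
    ∀ᶠ r : ℝ in atTop, 0 < aF f r * Real.log (Real.log (aF f r)) := by
  obtain ⟨-, -, h⟩ := inf_facts f hf hlim
  filter_upwards [h.eventually_gt_atTop 0,
    (Real.tendsto_log_atTop.comp (Real.tendsto_log_atTop.comp h)).eventually_gt_atTop 0] with r h1 h2
  exact mul_pos h1 h2

theorem C_inf_eq :
    sInf {L : EReal | ∃ f : ℂ → ℂ, Differentiable ℂ f ∧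
      limsup (fun r : ℝ => ((Real.log (aF f r) / Real.log r : ℝ) : EReal)) atTop = ⊤ ∧
      L = limsup (fun r : ℝ => bF f r /
        ((aF f r * Real.log (Real.log (aF f r)) : ℝ) : EReal)) atTop} = -2 := by
  have e2 : (-2 : EReal) = ((-2 : ℝ) : EReal) := by
    rw [EReal.coe_neg]
    rfl
  rw [e2]
  apply le_antisymm
  · by_contra hcon
    obtain ⟨t, ht1, ht2⟩ := EReal.lt_iff_exists_real_btwn.1 (not_le.1 hcon)
    rw [EReal.coe_lt_coe_iff] at ht1
    obtain ⟨ε, hε, hε1, hεt⟩ : ∃ ε : ℝ, 0 < ε ∧ ε ≤ 1 / 10 ∧ ε ≤ (t + 2) / 16 :=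
      ⟨min (1 / 10) ((t + 2) / 16), lt_min (by norm_num) (by linarith), min_le_left _ _,
        min_le_right _ _⟩
    obtain ⟨f, hf, hord, hev⟩ := upper_inf ε hε hε1
    refine absurd (lt_of_lt_of_le ht2 (sInf_le ⟨f, hf, hord, rfl⟩)) (not_lt.2 ?_)
    refine limsup_le_of_le (by isBoundedDefault) ?_
    filter_upwards [hev, ll_pos f hf hord] with r hr ha
    obtain ⟨z, hz, hfz⟩ := hr
    rw [EReal.div_le_iff_le_mul (by exact_mod_cast ha) (EReal.coe_ne_top _)]
    have h2 := MinMod.G.cot_bF_le ((MinMod.G.cot_minMod_le f hz).trans hfz)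
    refine h2.trans ?_
    rw [← EReal.coe_mul, EReal.coe_le_coe_iff]
    nlinarith
  · refine le_sInf ?_
    rintro L ⟨f, hd, hord, rfl⟩
    by_contra hcon
    obtain ⟨t, ht1, ht2⟩ := EReal.lt_iff_exists_real_btwn.1 (not_le.1 hcon)
    rw [EReal.coe_lt_coe_iff] at ht2
    obtain ⟨ε, hε, hε1, hεt⟩ : ∃ ε : ℝ, 0 < ε ∧ ε ≤ 1 ∧ ε ≤ (-2 - t) / 14 :=
      ⟨min 1 ((-2 - t) / 14), lt_min (by norm_num) (by linarith), min_le_left _ _,
        min_le_right _ _⟩
    have hT := lower_inf ε hε hε1 f hd hord (-t) (by linarith) ?_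
    · linarith
    · have h1 := eventually_lt_of_limsup_lt ht1
      filter_upwards [h1, ll_pos f hd hord, eventually_ge_atTop (0:ℝ)] with r hr ha hr0
      rw [EReal.div_lt_iff (by exact_mod_cast ha) (EReal.coe_ne_top _), ← EReal.coe_mul] at hr
      have h2 := MinMod.G.cot_lt_of_bF hr
      obtain ⟨z, hz, hfz⟩ := MinMod.G.cot_min_att f hd.continuous hr0
      refine ⟨z, hz, hfz.trans (h2.le.trans (le_of_eq ?_))⟩
      congr 1
      ring

end H160Z
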